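import Pool.Agent.Lib.Pec7.Idx

/-!
# Coincidences among the four primes of two decompositions
-/

set_option autoImplicit false

open Finset

namespace Pool.Agent.Pec7

/-- the larger prime of the decomposition -/
noncomputable def vv (n k : ℕ) : ℕ := pr (pr (n - k))

theorem vv_anti {n k k' : ℕ} (hk' : k' < n) (h : k < k') : vv n k' < vv n k := by
  have h4 : pr (n - k') < pr (n - k) := pr_lt (by omega) (by omega)
  exact pr_lt (pr_prime _).one_lt.le h4

theorem vv_inj {n k k' : ℕ} (hk : k < n) (hk' : k' < n) (h : vv n k = vv n k') : k = k' := by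
  rcases lt_trichotomy k k' with h1 | h1 | h1
  · exact absurd h (vv_anti hk' h1).ne'
  · exact h1
  · exact absurd h (vv_anti hk h1).ne

/-- coincidences among `p_k, v_k, p_k', v_k'` -/
def Coin (n : ℕ) (z : ℕ × ℕ) : Prop := z.1 = z.2 ∨ pr z.1 = vv n z.2 ∨ vv n z.1 = pr z.2

open Classical in
theorem card_coin (n : ℕ) (G : Finset ℕ) (hG : G ⊆ KK n) :
    ((G ×ˢ G).filter (Coin n)).card ≤ 3 * G.card := by
  have hsub : (G ×ˢ G).filter (Coin n) ⊆
      ((G ×ˢ G).filter (fun z => z.1 = z.2) ∪ (G ×ˢ G).filter (fun z => pr z.1 = vv n z.2)) ∪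
        (G ×ˢ G).filter (fun z => vv n z.1 = pr z.2) := by
    intro z hz
    rw [mem_filter] at hz
    simp only [mem_union, mem_filter]
    rcases hz.2 with h | h | h
    · exact Or.inl (Or.inl ⟨hz.1, h⟩)
    · exact Or.inl (Or.inr ⟨hz.1, h⟩)
    · exact Or.inr ⟨hz.1, h⟩
  have hmem : ∀ k ∈ G, 1 ≤ k ∧ k < n := fun k hk => by
    obtain ⟨h1, h2, -⟩ := mem_KK.mp (hG hk)
    exact ⟨by omega, h2⟩
  have a1 : ((G ×ˢ G).filter (fun z => z.1 = z.2)).card ≤ G.card := by
    refine card_le_card_of_injOn (fun z => z.1) (fun z hz => ?_) ?_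
    · rw [mem_coe, mem_filter, mem_product] at hz
      exact mem_coe.mpr hz.1.1
    · intro z hz w hw h
      rw [mem_coe, mem_filter, mem_product] at hz hw
      have h' : z.1 = w.1 := h
      exact Prod.ext h' (by rw [← hz.2, ← hw.2, h'])
  have a2 : ((G ×ˢ G).filter (fun z => pr z.1 = vv n z.2)).card ≤ G.card := by
    refine card_le_card_of_injOn (fun z => z.2) (fun z hz => ?_) ?_
    · rw [mem_coe, mem_filter, mem_product] at hz
      exact mem_coe.mpr hz.1.2
    · intro z hz w hw h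
      rw [mem_coe, mem_filter, mem_product] at hz hw
      have h' : z.2 = w.2 := h
      refine Prod.ext ?_ h'
      exact pr_inj (hmem _ hz.1.1).1 (hmem _ hw.1.1).1 (by rw [hz.2, hw.2, h'])
  have a3 : ((G ×ˢ G).filter (fun z => vv n z.1 = pr z.2)).card ≤ G.card := by
    refine card_le_card_of_injOn (fun z => z.1) (fun z hz => ?_) ?_
    · rw [mem_coe, mem_filter, mem_product] at hz
      exact mem_coe.mpr hz.1.1
    · intro z hz w hw h
      rw [mem_coe, mem_filter, mem_product] at hz hw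
      have h' : z.1 = w.1 := h
      refine Prod.ext h' ?_
      exact pr_inj (hmem _ hz.1.2).1 (hmem _ hw.1.2).1 (by rw [← hz.2, ← hw.2, h'])
  have h1 := card_le_card hsub
  have h2 := card_union_le ((G ×ˢ G).filter (fun z => z.1 = z.2) ∪
    (G ×ˢ G).filter (fun z => pr z.1 = vv n z.2)) ((G ×ˢ G).filter (fun z => vv n z.1 = pr z.2))
  have h3 := card_union_le ((G ×ˢ G).filter (fun z => z.1 = z.2))
    ((G ×ˢ G).filter (fun z => pr z.1 = vv n z.2))
  omega

theorem card_coin' (n : ℕ) (G : Finset ℕ) (hG : G ⊆ KK n) (S : Finset (ℕ × ℕ))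
    (hS : ∀ z ∈ S, z.1 ∈ G ∧ z.2 ∈ G ∧ Coin n z) : S.card ≤ 3 * G.card := by
  classical
  refine le_trans (card_le_card (fun z hz => ?_)) (card_coin n G hG)
  obtain ⟨h1, h2, h3⟩ := hS z hz
  exact mem_filter.mpr ⟨mem_product.mpr ⟨h1, h2⟩, h3⟩

/-- the four shifts -/
noncomputable def t4 (n k k' : ℕ) : Fin 4 → ℕ := ![pr k, vv n k, pr k', vv n k']

theorem t4_le {n k k' D : ℕ} (hk : k ∈ KK n) (hk' : k' ∈ KK n) (hD : pr (pr n) ≤ D) :
    ∀ i, t4 n k k' i ≤ D := by
  have h1 : ∀ j ∈ KK n, vv n j ≤ D ∧ pr j ≤ D := by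
    intro j hj
    obtain ⟨h1, h2, h3⟩ := mem_KK.mp hj
    have h4 : pr (n - j) ≤ pr n := pr_le (by omega) (by omega)
    have h5 : pr (pr (n - j)) ≤ pr (pr n) := pr_le (pr_prime _).one_lt.le h4
    have h6 := KK_lt hj
    unfold vv
    exact ⟨by omega, by omega⟩
  intro i
  unfold t4
  fin_cases i
  · exact (h1 k hk).2
  · exact (h1 k hk).1
  · exact (h1 k' hk').2
  · exact (h1 k' hk').1

theorem t4_two {n k k' : ℕ} (hk : k ∈ KK n) : 2 ≤ (univ.image (t4 n k k')).card := by
  classical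
  have h := KK_lt hk
  have hsub : ({pr k, vv n k} : Finset ℕ) ⊆ univ.image (t4 n k k') := by
    intro x hx
    rw [mem_insert, mem_singleton] at hx
    rw [mem_image]
    rcases hx with rfl | rfl
    · exact ⟨0, mem_univ _, rfl⟩
    · exact ⟨1, mem_univ _, rfl⟩
  have h2 := card_le_card hsub
  rwa [card_pair (by unfold vv; omega)] at h2

theorem t4_four {n k k' : ℕ} (hk : k ∈ KK n) (hk' : k' ∈ KK n) (hc : ¬ Coin n (k, k')) :
    (univ.image (t4 n k k')).card = 4 := by
  classical
  have h := KK_lt hk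
  have h' := KK_lt hk'
  obtain ⟨h1, h2, -⟩ := mem_KK.mp hk
  obtain ⟨g1, g2, -⟩ := mem_KK.mp hk'
  unfold Coin at hc
  rw [not_or, not_or] at hc
  obtain ⟨c1, c2, c3⟩ := hc
  simp only at c1 c2 c3
  have d1 : pr k ≠ pr k' := fun e => c1 (pr_inj (by omega) (by omega) e)
  have d2 : vv n k ≠ vv n k' := fun e => c1 (vv_inj h2 g2 e)
  have d3 : pr k ≠ vv n k := by unfold vv; omega
  have d4 : pr k' ≠ vv n k' := by unfold vv; omega
  have hinj : Function.Injective (t4 n k k') := by
    intro i j hij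
    unfold t4 at hij
    fin_cases i <;> fin_cases j <;> simp at hij ⊢ <;> first
      | exact absurd hij d1 | exact absurd hij.symm d1
      | exact absurd hij d2 | exact absurd hij.symm d2
      | exact absurd hij d3 | exact absurd hij.symm d3
      | exact absurd hij d4 | exact absurd hij.symm d4
      | exact absurd hij c2 | exact absurd hij.symm c2
      | exact absurd hij c3 | exact absurd hij.symm c3
  rw [card_image_of_injective _ hinj]
  simp

end Pool.Agent.Pec7
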