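import Mathlib

/-!
# Indices, shifts and counts for the sums `k + m` with `p_k + 2 d` and `p_(p_m) + 2 d` both prime
-/

set_option autoImplicit false

open Finset

namespace Pool.Agent.Pec7

/-- the `j`-th prime `p_j`, with `p_1 = 2` -/
noncomputable def pr (j : ℕ) : ℕ := Nat.nth Nat.Prime (j - 1)

/-- `n` is `d`-representable: `n = k + m` with `k, m ≥ 1` and `p_k + 2 d`, `p_(p_m) + 2 d` both prime -/
def Representable (d n : ℕ) : Prop :=
  ∃ k m : ℕ, 1 ≤ k ∧ 1 ≤ m ∧ n = k + m ∧ (pr k + 2 * d).Prime ∧ (pr (pr m) + 2 * d).Prime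

/-- number of primes `x ≤ y` with `x + t` prime -/
noncomputable def cnt (y t : ℕ) : ℕ := ((Icc 1 y).filter (fun x => x.Prime ∧ (x + t).Prime)).card

/-- number of `d ≤ D` with `a + 2 d` and `b + 2 d` both prime -/
noncomputable def cntd (D a b : ℕ) : ℕ :=
  ((Icc 1 D).filter (fun d => (a + 2 * d).Prime ∧ (b + 2 * d).Prime)).card

theorem pr_prime (n : ℕ) : (pr n).Prime := Nat.prime_nth_prime _

theorem pr_one : pr 1 = 2 := by
  unfold pr
  simp

theorem pr_lt {m n : ℕ} (hm : 1 ≤ m) (hmn : m < n) : pr m < pr n :=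
  Nat.nth_strictMono Nat.infinite_setOfPred_prime (by omega)

theorem pr_le {m n : ℕ} (hm : 1 ≤ m) (hmn : m ≤ n) : pr m ≤ pr n := by
  rcases hmn.lt_or_eq with h | h
  · exact (pr_lt hm h).le
  · rw [h]

theorem pr_inj {m n : ℕ} (hm : 1 ≤ m) (hn : 1 ≤ n) (h : pr m = pr n) : m = n := by
  rcases lt_trichotomy m n with h1 | h1 | h1
  · exact absurd h (pr_lt hm h1).ne
  · exact h1
  · exact absurd h (pr_lt hn h1).ne'

theorem lt_pr {n : ℕ} (hn : 1 ≤ n) : n < pr n := by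
  have := Nat.add_two_le_nth_prime (n - 1)
  unfold pr
  omega

theorem two_lt_pr {j : ℕ} (hj : 2 ≤ j) : 2 < pr j := by
  have := pr_lt le_rfl (show 1 < j by omega)
  rwa [pr_one] at this

theorem odd_pr {j : ℕ} (hj : 2 ≤ j) : Odd (pr j) :=
  (pr_prime j).odd_of_ne_two (two_lt_pr hj).ne'

/-- the shift of the decomposition `n = k + (n - k)` -/
noncomputable def sh (n k : ℕ) : ℕ := pr (pr (n - k)) - pr k

/-- the decompositions `n = k + (n - k)` with `2 ≤ k` and `k < p_(n - k)` -/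
noncomputable def KK (n : ℕ) : Finset ℕ := (Icc 2 (n - 1)).filter (fun k => k < pr (n - k))

theorem mem_KK {n k : ℕ} : k ∈ KK n ↔ 2 ≤ k ∧ k < n ∧ k < pr (n - k) := by
  unfold KK
  rw [mem_filter, mem_Icc]
  constructor
  · rintro ⟨⟨h1, h2⟩, h3⟩
    exact ⟨h1, by omega, h3⟩
  · rintro ⟨h1, h2, h3⟩
    exact ⟨⟨h1, by omega⟩, h3⟩

theorem KK_lt {n k : ℕ} (hk : k ∈ KK n) : pr k < pr (pr (n - k)) := by
  obtain ⟨h1, h2, h3⟩ := mem_KK.mp hk
  exact pr_lt (by omega) h3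

theorem sh_pos {n k : ℕ} (hk : k ∈ KK n) : 1 ≤ sh n k := by
  have := KK_lt hk
  unfold sh
  omega

theorem sh_add {n k : ℕ} (hk : k ∈ KK n) : pr k + sh n k = pr (pr (n - k)) := by
  have := KK_lt hk
  unfold sh
  omega

theorem sh_even {n k : ℕ} (hk : k ∈ KK n) : Even (sh n k) := by
  obtain ⟨h1, h2, h3⟩ := mem_KK.mp hk
  have h4 : Odd (pr (pr (n - k))) := odd_pr (by omega)
  have h5 := odd_pr h1
  unfold sh
  exact Nat.Odd.sub_odd h4 h5

theorem sh_le {n k : ℕ} (hk : k ∈ KK n) : sh n k ≤ pr (pr n) := by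
  obtain ⟨h1, h2, h3⟩ := mem_KK.mp hk
  have h4 : pr (n - k) ≤ pr n := pr_le (by omega) (by omega)
  have h5 : pr (pr (n - k)) ≤ pr (pr n) := pr_le (pr_prime _).one_lt.le h4
  unfold sh
  omega

theorem sh_anti {n k k' : ℕ} (hk : k ∈ KK n) (hk' : k' ∈ KK n) (h : k < k') : sh n k' < sh n k := by
  obtain ⟨h1, h2, h3⟩ := mem_KK.mp hk
  obtain ⟨g1, g2, g3⟩ := mem_KK.mp hk'
  have h4 : pr (n - k') < pr (n - k) := pr_lt (by omega) (by omega)
  have h5 : pr (pr (n - k')) < pr (pr (n - k)) := pr_lt (pr_prime _).one_lt.le h4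
  have h6 : pr k < pr k' := pr_lt (by omega) h
  have h7 := sh_add hk
  have h8 := sh_add hk'
  omega

theorem sh_inj (n : ℕ) : Set.InjOn (sh n) (KK n : Set ℕ) := by
  intro k hk k' hk' h
  rcases lt_trichotomy k k' with h1 | h1 | h1
  · exact absurd h (sh_anti (mem_coe.mp hk) (mem_coe.mp hk') h1).ne'
  · exact h1
  · exact absurd h (sh_anti (mem_coe.mp hk') (mem_coe.mp hk) h1).ne

theorem card_KK {n : ℕ} (hn : 8 ≤ n) : n ≤ 4 * (KK n).card := by
  have h : Icc 2 (n / 2) ⊆ KK n := by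
    intro k hk
    rw [mem_Icc] at hk
    have h1 : n - k < pr (n - k) := lt_pr (by omega)
    exact mem_KK.mpr ⟨hk.1, by omega, by omega⟩
  have h2 := card_le_card h
  rw [Nat.card_Icc] at h2
  omega

/-- from primes `x ∈ (D, 2D]` with `x + t` prime to values of `d` -/
theorem transfer {n k D : ℕ} (hk : k ∈ KK n) (hD : pr k ≤ D) :
    cnt (2 * D) (sh n k) ≤ cnt D (sh n k) + cntd D (pr k) (pr (pr (n - k))) := by
  classical
  obtain ⟨h1, h2, h3⟩ := mem_KK.mp hk
  have hodd := odd_pr h1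
  have h2k := two_lt_pr h1
  have hsub : (Icc 1 (2 * D)).filter (fun x => x.Prime ∧ (x + sh n k).Prime) ⊆
      (Icc 1 D).filter (fun x => x.Prime ∧ (x + sh n k).Prime) ∪
      ((Icc 1 D).filter (fun d => (pr k + 2 * d).Prime ∧ (pr (pr (n - k)) + 2 * d).Prime)).image
        (fun d => pr k + 2 * d) := by
    intro x hx
    rw [mem_filter, mem_Icc] at hx
    obtain ⟨⟨hx1, hx2⟩, hx3, hx4⟩ := hx
    rw [mem_union]
    by_cases hxD : x ≤ D
    · left
      rw [mem_filter, mem_Icc]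
      exact ⟨⟨hx1, hxD⟩, hx3, hx4⟩
    · right
      have hxo : Odd x := hx3.odd_of_ne_two (by omega)
      obtain ⟨d, hd⟩ : Even (x - pr k) := Nat.Odd.sub_odd hxo hodd
      have e1 : x = pr k + 2 * d := by omega
      have hadd := sh_add hk
      rw [mem_image]
      refine ⟨d, ?_, e1.symm⟩
      rw [mem_filter, mem_Icc]
      refine ⟨⟨by omega, by omega⟩, ?_, ?_⟩
      · rw [← e1]; exact hx3
      · have e2 : pr (pr (n - k)) + 2 * d = x + sh n k := by omega
        rw [e2]; exact hx4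
  calc cnt (2 * D) (sh n k) ≤ _ := card_le_card hsub
    _ ≤ _ := card_union_le _ _
    _ ≤ _ := Nat.add_le_add_left card_image_le _

end Pool.Agent.Pec7
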