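import Mathlib

/-!
# Second moment inequality
-/

set_option autoImplicit false

open Finset

namespace Pool.Agent.Pec7

open Classical in
theorem second_moment_aux (I G : Finset ℕ) (P : ℕ → ℕ → Prop) (E : ℕ × ℕ → Prop) (a B2 B4 : ℝ)
    (ha0 : 0 ≤ a) (hB2 : 0 ≤ B2) (hB4 : 0 ≤ B4)
    (ha : ∀ k ∈ G, a ≤ ((I.filter (fun d => P k d)).card : ℝ))
    (h2 : ∀ k ∈ G, ∀ k' ∈ G, E (k, k') → ((I.filter (fun d => P k d ∧ P k' d)).card : ℝ) ≤ B2)
    (h4 : ∀ k ∈ G, ∀ k' ∈ G, ¬ E (k, k') → ((I.filter (fun d => P k d ∧ P k' d)).card : ℝ) ≤ B4)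
    (hE : ((G ×ˢ G).filter E).card ≤ 3 * G.card) :
    (G.card * a) ^ 2 ≤ ((I.filter (fun d => ∃ k ∈ G, P k d)).card : ℝ) *
      (3 * G.card * B2 + (G.card : ℝ) ^ 2 * B4) := by
  set R : ℕ → ℝ := fun d => ∑ k ∈ G, if P k d then (1 : ℝ) else 0 with hR
  set S := I.filter (fun d => ∃ k ∈ G, P k d) with hS
  have hcount : ∀ (J : Finset ℕ) (Q : ℕ → Prop), ((J.filter Q).card : ℝ) = ∑ d ∈ J, if Q d then (1 : ℝ) else 0 := by
    intro J Q
    rw [Finset.card_filter]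
    push_cast
    rfl
  -- first moment
  have h1 : (G.card : ℝ) * a ≤ ∑ d ∈ S, R d := by
    have e1 : ∑ d ∈ S, R d = ∑ d ∈ I, R d := by
      refine sum_subset (filter_subset _ _) (fun d hd hdS => ?_)
      refine sum_eq_zero (fun k hk => ?_)
      rw [if_neg]
      intro hP
      exact hdS (mem_filter.mpr ⟨hd, k, hk, hP⟩)
    rw [e1]
    have e2 : ∑ d ∈ I, R d = ∑ k ∈ G, ((I.filter (fun d => P k d)).card : ℝ) := by
      rw [hR, sum_comm]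
      exact sum_congr rfl (fun k _ => (hcount I _).symm)
    rw [e2]
    calc (G.card : ℝ) * a = ∑ _k ∈ G, a := by rw [sum_const, nsmul_eq_mul]
      _ ≤ _ := sum_le_sum ha
  -- second moment
  have h5 : ∑ d ∈ S, R d ^ 2 ≤ 3 * G.card * B2 + (G.card : ℝ) ^ 2 * B4 := by
    have e1 : ∑ d ∈ S, R d ^ 2 ≤ ∑ d ∈ I, R d ^ 2 :=
      sum_le_sum_of_subset_of_nonneg (filter_subset _ _) (fun d _ _ => sq_nonneg _)
    have e2 : ∑ d ∈ I, R d ^ 2 =
        ∑ z ∈ G ×ˢ G, ((I.filter (fun d => P z.1 d ∧ P z.2 d)).card : ℝ) := by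
      have : ∀ d, R d ^ 2 = ∑ z ∈ G ×ˢ G, if P z.1 d ∧ P z.2 d then (1 : ℝ) else 0 := by
        intro d
        rw [sq, hR, sum_mul_sum, ← sum_product']
        refine sum_congr rfl (fun z _ => ?_)
        by_cases u : P z.1 d <;> by_cases v : P z.2 d <;> simp [u, v]
      simp_rw [this]
      rw [sum_comm]
      refine sum_congr rfl (fun z _ => ?_)
      rw [Finset.card_filter]
      push_cast
      rfl
    refine e1.trans ?_
    rw [e2, ← sum_filter_add_sum_filter_not (G ×ˢ G) E]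
    have e3 : ∑ z ∈ (G ×ˢ G).filter E, ((I.filter (fun d => P z.1 d ∧ P z.2 d)).card : ℝ) ≤
        3 * G.card * B2 := by
      calc _ ≤ ∑ _z ∈ (G ×ˢ G).filter E, B2 := by
            refine sum_le_sum (fun z hz => ?_)
            rw [mem_filter, mem_product] at hz
            exact h2 z.1 hz.1.1 z.2 hz.1.2 hz.2
        _ = ((G ×ˢ G).filter E).card * B2 := by rw [sum_const, nsmul_eq_mul]
        _ ≤ (3 * G.card : ℕ) * B2 := by gcongr
        _ = _ := by push_cast; ring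
    have e4 : ∑ z ∈ (G ×ˢ G).filter (fun z => ¬ E z), ((I.filter (fun d => P z.1 d ∧ P z.2 d)).card : ℝ) ≤
        (G.card : ℝ) ^ 2 * B4 := by
      calc _ ≤ ∑ _z ∈ (G ×ˢ G).filter (fun z => ¬ E z), B4 := by
            refine sum_le_sum (fun z hz => ?_)
            rw [mem_filter, mem_product] at hz
            exact h4 z.1 hz.1.1 z.2 hz.1.2 hz.2
        _ = ((G ×ˢ G).filter (fun z => ¬ E z)).card * B4 := by rw [sum_const, nsmul_eq_mul]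
        _ ≤ ((G ×ˢ G).card : ℕ) * B4 := by gcongr; exact filter_subset _ _
        _ = _ := by rw [card_product]; push_cast; ring
    linarith
  have h6 : (∑ d ∈ S, R d) ^ 2 ≤ S.card * ∑ d ∈ S, R d ^ 2 := sq_sum_le_card_mul_sum_sq
  have h0 : 0 ≤ (G.card : ℝ) * a := by positivity
  calc (G.card * a) ^ 2 ≤ (∑ d ∈ S, R d) ^ 2 := pow_le_pow_left₀ h0 h1 2
    _ ≤ S.card * ∑ d ∈ S, R d ^ 2 := h6
    _ ≤ _ := by gcongr

theorem second_moment (I G : Finset ℕ) (P : ℕ → ℕ → Prop) (E : ℕ × ℕ → Prop) (a B2 B4 : ℝ)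
    (ha0 : 0 ≤ a) (hB2 : 0 ≤ B2) (hB4 : 0 ≤ B4)
    (ha : ∀ k ∈ G, ∃ S : Finset ℕ, (∀ d ∈ S, d ∈ I ∧ P k d) ∧ a ≤ (S.card : ℝ))
    (h2 : ∀ k ∈ G, ∀ k' ∈ G, E (k, k') → ∀ S : Finset ℕ, (∀ d ∈ S, d ∈ I ∧ P k d ∧ P k' d) →
      (S.card : ℝ) ≤ B2)
    (h4 : ∀ k ∈ G, ∀ k' ∈ G, ¬ E (k, k') → ∀ S : Finset ℕ, (∀ d ∈ S, d ∈ I ∧ P k d ∧ P k' d) →
      (S.card : ℝ) ≤ B4)
    (hE : ∀ S : Finset (ℕ × ℕ), (∀ z ∈ S, z.1 ∈ G ∧ z.2 ∈ G ∧ E z) → S.card ≤ 3 * G.card) :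
    ∃ S : Finset ℕ, (∀ d ∈ S, d ∈ I ∧ ∃ k ∈ G, P k d) ∧
      (G.card * a) ^ 2 ≤ (S.card : ℝ) * (3 * G.card * B2 + (G.card : ℝ) ^ 2 * B4) := by
  classical
  refine ⟨_, ?_, second_moment_aux I G P E a B2 B4 ha0 hB2 hB4 ?_ ?_ ?_ ?_⟩
  · intro d hd
    exact mem_filter.mp hd
  · intro k hk
    obtain ⟨S, hS, hSa⟩ := ha k hk
    refine hSa.trans ?_
    exact_mod_cast card_le_card (fun d hd => mem_filter.mpr (hS d hd))
  · intro k hk k' hk' he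
    exact h2 k hk k' hk' he _ (fun d hd => mem_filter.mp hd)
  · intro k hk k' hk' he
    exact h4 k hk k' hk' he _ (fun d hd => mem_filter.mp hd)
  · refine hE _ (fun z hz => ?_)
    have h := mem_filter.mp hz
    have h' := mem_product.mp h.1
    exact ⟨h'.1, h'.2, h.2⟩

end Pool.Agent.Pec7
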