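import Pool.Agent.Lib.AS.CntBound
import Pool.Agent.Lib.Pec7.Idx

/-!
# Upper bounds for the number of `d ≤ D` with all `t_i + 2 d` prime
-/

set_option autoImplicit false

open Finset Filter

namespace Pool.Agent.Pec7

lemma tendsto_log_nat' : Tendsto (fun x : ℕ => Real.log (x : ℝ)) atTop atTop :=
  Real.tendsto_log_atTop.comp tendsto_natCast_atTop_atTop

lemma count_le (D : ℕ) {r : ℕ} (t : Fin r → ℕ) :
    ((Icc 1 D).filter (fun d => ∀ i, (t i + 2 * d).Prime)).card ≤ HLB.cnt t (2 * D) := by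
  have e : HLB.cnt t (2 * D) = ((Icc 1 (2 * D)).filter (fun n => ∀ i, (n + t i).Prime)).card := by
    unfold HLB.cnt
    congr
  rw [e]
  refine card_le_card_of_injOn (fun d => 2 * d) (fun d hd => ?_) (fun d _ d' _ h => ?_)
  · rw [mem_coe, mem_filter, mem_Icc] at hd
    rw [mem_coe, mem_filter, mem_Icc]
    refine ⟨⟨?_, ?_⟩, fun i => ?_⟩
    · show 1 ≤ 2 * d
      omega
    · show 2 * d ≤ 2 * D
      omega
    · have := hd.2 i
      rwa [add_comm] at this
  · have h' : 2 * d = 2 * d' := h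
    omega

theorem tuple_bound (r : ℕ) (hr : 1 ≤ r) : ∃ C : ℝ, 0 < C ∧ ∀ᶠ D : ℕ in atTop,
    ∀ t : Fin r → ℕ, (∀ i, t i ≤ D) →
    (((Icc 1 D).filter (fun d => ∀ i, (t i + 2 * d).Prime)).card : ℝ) ≤
      C * Real.log (Real.log D) ^ r * (D / Real.log D ^ (univ.image t).card) := by
  obtain ⟨C, hC, h⟩ := AS.cnt_upper_all r 0 hr
  refine ⟨C * 2 ^ r * 2, by positivity, ?_⟩
  have h2 : Tendsto (fun D : ℕ => 2 * D) atTop atTop :=
    tendsto_atTop_mono (fun D => by show D ≤ 2 * D; omega) tendsto_id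
  filter_upwards [h2.eventually h, tendsto_log_nat'.eventually_ge_atTop 20, eventually_ge_atTop 1]
    with D hD hL hD1 t ht
  have hDr : (1 : ℝ) ≤ D := by exact_mod_cast hD1
  have h3 := hD (Fin r) t (Fintype.card_fin r) (fun i => by
    have h4 : (t i : ℝ) ≤ D := by exact_mod_cast ht i
    push_cast
    rw [pow_zero, mul_one]
    linarith)
  have h5 : (((Icc 1 D).filter (fun d => ∀ i, (t i + 2 * d).Prime)).card : ℝ) ≤
      HLB.cnt t (2 * D) := by exact_mod_cast count_le D t
  refine (h5.trans h3).trans ?_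
  have hlog2 : Real.log ((2 * D : ℕ) : ℝ) = Real.log 2 + Real.log D := by
    push_cast
    rw [Real.log_mul (by norm_num) (by linarith)]
  have hl2 := Real.log_two_lt_d9
  have hl2' := Real.log_two_gt_d9
  have hL1 : Real.log D ≤ Real.log ((2 * D : ℕ) : ℝ) := by rw [hlog2]; linarith
  have hL2 : Real.log ((2 * D : ℕ) : ℝ) ≤ Real.log D ^ 2 := by rw [hlog2]; nlinarith
  have hLL : Real.log (Real.log ((2 * D : ℕ) : ℝ)) ≤ 2 * Real.log (Real.log D) := by
    calc Real.log (Real.log ((2 * D : ℕ) : ℝ)) ≤ Real.log (Real.log D ^ 2) :=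
          Real.log_le_log (by linarith) hL2
      _ = 2 * Real.log (Real.log D) := by rw [Real.log_pow]; push_cast; ring
  have hLL0 : 0 ≤ Real.log (Real.log ((2 * D : ℕ) : ℝ)) := Real.log_nonneg (by linarith)
  have hLD0 : 0 ≤ Real.log (Real.log D) := Real.log_nonneg (by linarith)
  calc C * Real.log (Real.log ((2 * D : ℕ) : ℝ)) ^ r *
        (((2 * D : ℕ) : ℝ) / Real.log ((2 * D : ℕ) : ℝ) ^ (univ.image t).card)
      ≤ C * (2 * Real.log (Real.log D)) ^ r *
        (((2 * D : ℕ) : ℝ) / Real.log D ^ (univ.image t).card) := by gcongr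
    _ = C * 2 ^ r * 2 * Real.log (Real.log D) ^ r *
        (D / Real.log D ^ (univ.image t).card) := by
        push_cast
        rw [mul_pow]
        ring

end Pool.Agent.Pec7
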