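import Pool.Agent.Lib.Pec7.MainL
import Pool.Agent.Lib.Pec7.Upper
import Pool.Agent.Lib.Pec7.Moment
import Pool.Agent.Lib.Pec7.Coin

/-!
# Every large `n` is `d`-representable for at least `c D / (log log D)^4` of the `d ≤ D`, `D^(1/6 + ε) ≤ n`
-/

set_option autoImplicit false

open Finset Filter

namespace Pool.Agent.Pec7

open Pool.Agent.Lib.Sieve4

theorem lowL : ∃ c : ℝ, 0 < c ∧ ∀ ε : ℝ, 0 < ε → ∃ n₀ : ℕ, ∀ n : ℕ, n₀ ≤ n → ∀ D : ℕ, pr (pr n) ≤ D →
    (D : ℝ) ^ (1 / 6 + ε) ≤ n →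
    c * (D / Real.log (Real.log D) ^ 4) ≤
      (Set.ncard {d : ℕ | 1 ≤ d ∧ d ≤ D ∧ Representable d n} : ℝ) := by
  obtain ⟨C, hC, hfour⟩ := tuple_bound 4 (by norm_num)
  have hc0 : 0 < c0 2 := c0_pos 2 (by norm_num)
  refine ⟨(c0 2 / 2) ^ 2 / (2 * C), by positivity, fun ε hε => ?_⟩
  obtain ⟨n₁, h1⟩ := mainL 1 ε hε
  obtain ⟨n₂, h2⟩ := eventually_atTop.mp hfour
  have hlog : ∀ᶠ n : ℕ in atTop, 20 ≤ Real.log (n : ℝ) := tendsto_log_nat'.eventually_ge_atTop _
  have hpow : ∀ p : ℕ, ∀ ε : ℝ, 0 < ε → ∀ᶠ n : ℕ in atTop, Real.log (n : ℝ) ^ p ≤ ε * n := by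
    intro p ε hε
    have h := (Real.isLittleO_pow_log_id_atTop (n := p)).bound hε
    filter_upwards [tendsto_natCast_atTop_atTop.eventually h, eventually_ge_atTop 1] with n hn h1
    simp only [id, Real.norm_eq_abs] at hn
    have h0 : 0 ≤ Real.log (n : ℝ) := Real.log_natCast_nonneg n
    rwa [abs_of_nonneg (by positivity), abs_of_nonneg (by positivity)] at hn
  obtain ⟨n₃, h3⟩ := eventually_atTop.mp (hlog.and (hpow 2 (1 / 900) (by norm_num)))
  refine ⟨max (max n₁ n₂) (max n₃ 8), fun n hn D hD1 hD2 => ?_⟩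
  have hn1 : n₁ ≤ n := (le_max_left _ _).trans ((le_max_left _ _).trans hn)
  have hn2 : n₂ ≤ n := (le_max_right _ _).trans ((le_max_left _ _).trans hn)
  have hn3 : n₃ ≤ n := (le_max_left _ _).trans ((le_max_right _ _).trans hn)
  have hn8 : 8 ≤ n := (le_max_right _ _).trans ((le_max_right _ _).trans hn)
  obtain ⟨hL, hL2⟩ := h3 n hn3
  have hn0 : (0 : ℝ) < n := by
    have : 0 < n := by omega
    exact_mod_cast this
  have hnD : n ≤ D := by
    have h1 := lt_pr (show 1 ≤ n by omega)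
    have h2 := lt_pr (pr_prime n).one_lt.le
    omega
  have hD0 : (0 : ℝ) < D := by
    have : 0 < D := by omega
    exact_mod_cast this
  have hnDr : (n : ℝ) ≤ D := by exact_mod_cast hnD
  have hLD : Real.log n ≤ Real.log D := Real.log_le_log hn0 hnDr
  set L := Real.log (n : ℝ) with hLdef
  obtain ⟨Y, hY1, hY3⟩ := h1 n hn1
  have hY2 := hY3 D hD1 hD2
  have hLDup : Real.log D ≤ 6 * L := by
    have h7 := Real.log_le_log (Real.rpow_pos_of_pos hD0 (1 / 6 + ε)) hD2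
    rw [Real.log_rpow hD0] at h7
    have h8 : 0 ≤ Real.log (D : ℝ) := Real.log_natCast_nonneg D
    nlinarith
  set LD := Real.log (D : ℝ) with hLDdef
  have hLD20 : 20 ≤ LD := hL.trans hLD
  set lam := Real.log LD with hlam
  have hlam0 : 0 < lam := Real.log_pos (by linarith)
  set G := KK n \ Y with hG
  have hGK : G ⊆ KK n := sdiff_subset
  have hM : (n : ℝ) / 8 ≤ G.card := by
    have e1 : (KK n).card ≤ G.card + Y.card := by
      have := card_le_card_sdiff_add_card (s := KK n) (t := Y)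
      rw [hG]
      exact this
    have e1r : ((KK n).card : ℝ) ≤ G.card + Y.card := by exact_mod_cast e1
    have e2r : (n : ℝ) ≤ 4 * (KK n).card := by exact_mod_cast card_KK hn8
    have e3 : (n : ℝ) / L ^ 1 ≤ n / 20 := by
      rw [pow_one]
      gcongr
    linarith
  have hG0 : (0 : ℝ) < G.card := by linarith [div_pos hn0 (show (0 : ℝ) < 8 by norm_num)]
  have hMbig : 3 * LD ^ 2 ≤ (G.card : ℝ) := by
    have : LD ^ 2 ≤ (6 * L) ^ 2 := by gcongr
    have e : (6 * L) ^ 2 = 36 * L ^ 2 := by ring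
    linarith
  set P : ℕ → ℕ → Prop := fun k d => (pr k + 2 * d).Prime ∧ (vv n k + 2 * d).Prime with hP
  have hb := h2 D (hn2.trans hnD)
  have hQ : ∀ k ∈ G, ∀ k' ∈ G, ∀ S : Finset ℕ, (∀ d ∈ S, d ∈ Icc 1 D ∧ P k d ∧ P k' d) →
      (S.card : ℝ) ≤ C * lam ^ 4 * (D / LD ^ (univ.image (t4 n k k')).card) := by
    intro k hk k' hk' S hS
    refine le_trans ?_ (hb (t4 n k k') (t4_le (hGK hk) (hGK hk') hD1))
    have hsub : S ⊆ (Icc 1 D).filter (fun d => ∀ i, (t4 n k k' i + 2 * d).Prime) := by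
      intro d hd
      obtain ⟨h0, ⟨p1, p2⟩, p3, p4⟩ := hS d hd
      rw [mem_filter]
      refine ⟨h0, fun i => ?_⟩
      unfold t4
      fin_cases i
      · exact p1
      · exact p2
      · exact p3
      · exact p4
    exact_mod_cast card_le_card hsub
  obtain ⟨S, hS, hsm⟩ := second_moment (Icc 1 D) G P (Coin n) (c0 2 / 2 * (D / LD ^ 2))
    (C * lam ^ 4 * (D / LD ^ 2)) (C * lam ^ 4 * (D / LD ^ 4)) (by positivity) (by positivity)
    (by positivity)
    (fun k hk => by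
      obtain ⟨q1, q2, q3⟩ := mem_KK.mp (hGK hk)
      have hkY : k ∉ Y := (mem_sdiff.mp hk).2
      have h9 := hY2 k (by omega) q2 q3 hkY
      unfold cntd at h9
      exact ⟨_, fun d hd => mem_filter.mp hd, h9⟩)
    (fun k hk k' hk' _ T hT => by
      refine (hQ k hk k' hk' T hT).trans ?_
      have e2 : LD ^ 2 ≤ LD ^ (univ.image (t4 n k k')).card :=
        pow_le_pow_right₀ (by linarith) (t4_two (hGK hk))
      gcongr)
    (fun k hk k' hk' hc T hT => by
      refine (hQ k hk k' hk' T hT).trans (le_of_eq ?_)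
      rw [t4_four (hGK hk) (hGK hk') hc])
    (card_coin' n G hGK)
  have hSle : (S.card : ℝ) ≤ (Set.ncard {d : ℕ | 1 ≤ d ∧ d ≤ D ∧ Representable d n} : ℝ) := by
    have hfin : {d : ℕ | 1 ≤ d ∧ d ≤ D ∧ Representable d n}.Finite :=
      (Set.finite_Icc 1 D).subset (fun d hd => ⟨hd.1, hd.2.1⟩)
    have : S.card ≤ Set.ncard {d : ℕ | 1 ≤ d ∧ d ≤ D ∧ Representable d n} := by
      rw [← Set.ncard_coe_finset]
      refine Set.ncard_le_ncard (fun d hd => ?_) hfin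
      obtain ⟨hd1, k, hk, hd2, hd3⟩ := hS d (mem_coe.mp hd)
      rw [mem_Icc] at hd1
      obtain ⟨q1, q2, q3⟩ := mem_KK.mp (hGK hk)
      exact ⟨hd1.1, hd1.2, k, n - k, by omega, by omega, by omega, hd2, hd3⟩
    exact_mod_cast this
  refine le_trans ?_ hSle
  -- algebra
  set M : ℝ := (G.card : ℝ) with hMdef
  have hB : 3 * M * (C * lam ^ 4 * (D / LD ^ 2)) ≤ M ^ 2 * (C * lam ^ 4 * (D / LD ^ 4)) := by
    have e : M ^ 2 * (C * lam ^ 4 * (D / LD ^ 4)) - 3 * M * (C * lam ^ 4 * (D / LD ^ 2)) =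
        M * (C * lam ^ 4 * (D / LD ^ 4)) * (M - 3 * LD ^ 2) := by
      field_simp
    have e2 : 0 ≤ M * (C * lam ^ 4 * (D / LD ^ 4)) * (M - 3 * LD ^ 2) := by
      apply mul_nonneg (by positivity)
      linarith
    linarith
  have hfin2 : (M * (c0 2 / 2 * (D / LD ^ 2))) ^ 2 ≤
      (S.card : ℝ) * (2 * (M ^ 2 * (C * lam ^ 4 * (D / LD ^ 4)))) := by
    refine hsm.trans ?_
    have : (0 : ℝ) ≤ S.card := Nat.cast_nonneg _
    apply mul_le_mul_of_nonneg_left _ this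
    linarith
  have hpos : 0 < 2 * (M ^ 2 * (C * lam ^ 4 * (D / LD ^ 4))) := by positivity
  have hkey : (c0 2 / 2) ^ 2 / (2 * C) * (D / lam ^ 4) * (2 * (M ^ 2 * (C * lam ^ 4 * (D / LD ^ 4)))) =
      (M * (c0 2 / 2 * (D / LD ^ 2))) ^ 2 := by
    field_simp
  rw [← hkey] at hfin2
  exact le_of_mul_le_mul_right hfin2 hpos

end Pool.Agent.Pec7
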