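import Pool.Agent.Lib.Pec7.SetL

/-!
# Almost all decompositions of `n`, all `D` with `p_(p_n) ≤ D` and `D^(1/6 + ε) ≤ n`
-/

set_option autoImplicit false

open Finset Filter

namespace Pool.Agent.Pec7

open Pool.Agent.Lib.Sieve4

theorem mainL (A : ℕ) (ε : ℝ) (hε : 0 < ε) : ∃ n₀ : ℕ, ∀ n : ℕ, n₀ ≤ n → ∃ Y : Finset ℕ,
    (Y.card : ℝ) ≤ n / Real.log n ^ A ∧
    ∀ D : ℕ, pr (pr n) ≤ D → (D : ℝ) ^ (1 / 6 + ε) ≤ n →
      ∀ k : ℕ, 1 ≤ k → k < n → k < pr (n - k) → k ∉ Y →
        c0 2 / 2 * (D / Real.log D ^ 2) ≤ cntd D (pr k) (pr (pr (n - k))) := by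
  classical
  obtain ⟨x0, h0⟩ := hl_long (A + 4) (ε / 2) (by positivity)
  have hlog : ∀ᶠ n : ℕ in atTop, 20 ≤ Real.log (n : ℝ) := tendsto_log_nat'.eventually_ge_atTop _
  have hpow : ∀ᶠ n : ℕ in atTop, 2 * Real.log (n : ℝ) ^ A ≤ n := by
    have h := (Real.isLittleO_pow_log_id_atTop (n := A)).bound (show (0 : ℝ) < 1 / 2 by norm_num)
    filter_upwards [tendsto_natCast_atTop_atTop.eventually h, eventually_ge_atTop 1] with n hn h1
    simp only [id, Real.norm_eq_abs] at hn
    have h0 : 0 ≤ Real.log (n : ℝ) := Real.log_natCast_nonneg n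
    rw [abs_of_nonneg (by positivity), abs_of_nonneg (by positivity)] at hn
    linarith
  have htwo : ∀ᶠ n : ℕ in atTop, (2 : ℝ) ^ (1 / 6 + ε / 2) ≤ (n : ℝ) ^ (ε / 2) :=
    ((tendsto_rpow_atTop (show 0 < ε / 2 by positivity)).comp
      tendsto_natCast_atTop_atTop).eventually_ge_atTop _
  obtain ⟨N₁, hN₁⟩ := eventually_atTop.mp (((hlog.and hpow).and htwo).and prpr_size)
  refine ⟨max (max x0 N₁) 8, fun n hn => ?_⟩
  have hnX : x0 ≤ n := (le_max_left _ _).trans ((le_max_left _ _).trans hn)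
  have hnN : N₁ ≤ n := (le_max_right _ _).trans ((le_max_left _ _).trans hn)
  have hn8 : 8 ≤ n := (le_max_right _ _).trans hn
  obtain ⟨⟨⟨hL, hP⟩, htw⟩, hsize⟩ := hN₁ n hnN
  have hn0 : (0 : ℝ) < n := by
    have : 0 < n := by omega
    exact_mod_cast this
  set X := pr (pr n) with hX
  have hnX' : n ≤ X := by
    have h1 := lt_pr (show 1 ≤ n by omega)
    have h2 := lt_pr (pr_prime n).one_lt.le
    omega
  have hX0 : (0 : ℝ) < X := by
    have : 0 < X := by omega
    exact_mod_cast this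
  have hnXr : (n : ℝ) ≤ X := by exact_mod_cast hnX'
  have hLX : Real.log n ≤ Real.log X := Real.log_le_log hn0 hnXr
  set L := Real.log (n : ℝ) with hLdef
  obtain ⟨E, hEX, hEc, hEg⟩ := h0 X (hnX.trans hnX')
  refine ⟨insert 1 ((KK n).filter (fun k => sh n k ∈ E)), ?_, ?_⟩
  · have h1 : ((KK n).filter (fun k => sh n k ∈ E)).card ≤ E.card := by
      refine card_le_card_of_injOn (sh n) (fun k hk => ?_) ?_
      · exact (mem_filter.mp (mem_coe.mp hk)).2
      · intro k hk k' hk' h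
        exact sh_inj n (mem_coe.mpr (mem_filter.mp (mem_coe.mp hk)).1)
          (mem_coe.mpr (mem_filter.mp (mem_coe.mp hk')).1) h
    have h2 : (insert 1 ((KK n).filter (fun k => sh n k ∈ E))).card ≤ E.card + 1 :=
      (card_insert_le _ _).trans (by omega)
    have h3 : ((insert 1 ((KK n).filter (fun k => sh n k ∈ E))).card : ℝ) ≤ E.card + 1 := by
      exact_mod_cast h2
    have hLA : 0 < L ^ A := by positivity
    have h4 : (E.card : ℝ) ≤ n / L ^ A / 20 := by
      calc (E.card : ℝ) ≤ X / Real.log X ^ (A + 4) := hEc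
        _ ≤ X / L ^ (A + 4) := by gcongr
        _ ≤ (n * L ^ 3) / L ^ (A + 4) := by gcongr
        _ = n / L ^ A / L := by
            rw [pow_add]
            field_simp
        _ ≤ n / L ^ A / 20 := by gcongr
    have h5 : (1 : ℝ) ≤ n / L ^ A / 2 := by
      rw [le_div_iff₀ (by norm_num), le_div_iff₀ hLA]
      linarith
    have h6 : 0 ≤ (n : ℝ) / L ^ A := by positivity
    linarith
  · intro D hD1 hD2 k hk1 hkn hkp hkY
    have hk2 : 2 ≤ k := by
      rcases Nat.lt_or_ge k 2 with h | h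
      · exfalso
        apply hkY
        rw [mem_insert]
        left
        omega
      · exact h
    have hkK : k ∈ KK n := mem_KK.mpr ⟨hk2, hkn, hkp⟩
    have hnE : sh n k ∉ E := fun h => hkY (mem_insert_of_mem (mem_filter.mpr ⟨hkK, h⟩))
    have hD0 : (0 : ℝ) < D := by
      have : 0 < D := by omega
      exact_mod_cast this
    have hnDr : (n : ℝ) ≤ D := hnXr.trans (by exact_mod_cast hD1)
    have h2D : ((2 * D : ℕ) : ℝ) ^ (1 / 6 + ε / 2) ≤ X := by
      push_cast
      rw [Real.mul_rpow (by norm_num) hD0.le]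
      calc (2 : ℝ) ^ (1 / 6 + ε / 2) * (D : ℝ) ^ (1 / 6 + ε / 2)
          ≤ (D : ℝ) ^ (ε / 2) * (D : ℝ) ^ (1 / 6 + ε / 2) := by
            have : (n : ℝ) ^ (ε / 2) ≤ (D : ℝ) ^ (ε / 2) :=
              Real.rpow_le_rpow hn0.le hnDr (by positivity)
            gcongr
            exact htw.trans this
        _ = (D : ℝ) ^ (1 / 6 + ε) := by
            rw [← Real.rpow_add hD0]
            congr 1
            ring
        _ ≤ n := hD2
        _ ≤ X := hnXr
    have hg := hEg (sh n k) (mem_Icc.mpr ⟨sh_pos hkK, sh_le hkK⟩) hnE (sh_even hkK) D hD1 h2D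
    have hpk : pr k ≤ D := by
      have h1 := KK_lt hkK
      have h3 := pr_le hk1 hkn.le
      have h4 := lt_pr (pr_prime n).one_lt.le
      omega
    have htr := transfer hkK hpk
    have htr' : (cnt (2 * D) (sh n k) : ℝ) ≤ cnt D (sh n k) + cntd D (pr k) (pr (pr (n - k))) := by
      exact_mod_cast htr
    linarith

end Pool.Agent.Pec7
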