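import Pool.Agent.Lib.HLT.Final
import Pool.Agent.Lib.Pec7.Idx

/-!
# Hardy-Littlewood for almost all elements of a dense set of even shifts
-/

set_option autoImplicit false

open Finset Filter

namespace Pool.Agent.Pec7

open Pool.Agent.HLB Pool.Agent.HLT Pool.Agent.Lib.Sieve4

/-- singular series of `(0, t)` -/
noncomputable def S2 (t : ℕ) : ℝ := SI (Fin.cons 0 (fun _ => t) : Fin 2 → ℕ)

lemma energy_one_le (T : Finset ℕ) : energy 1 T ≤ T.card := by
  classical
  unfold energy
  have h : ((Fintype.piFinset (fun _ : Fin 1 => T) ×ˢ Fintype.piFinset (fun _ : Fin 1 => T)).filter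
      (fun u => ∑ i, u.1 i = ∑ i, u.2 i)) ⊆ T.image (fun t => ((fun _ => t), (fun _ => t))) := by
    intro u hu
    rw [mem_filter, mem_product, Fintype.mem_piFinset, Fintype.mem_piFinset] at hu
    obtain ⟨⟨h1, h2⟩, h3⟩ := hu
    rw [mem_image]
    refine ⟨u.1 0, h1 0, ?_⟩
    simp only [Fin.sum_univ_one] at h3
    ext i
    · fin_cases i; rfl
    · fin_cases i
      exact h3
  exact (card_le_card h).trans card_image_le

lemma nuI_lt {t : ℕ} (ht : Even t) (p : ℕ) (hp : p.Prime) :
    nuI (Fin.cons 0 (fun _ => t) : Fin 2 → ℕ) p < p := by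
  classical
  unfold nuI
  rcases hp.eq_two_or_odd with h2 | h2
  · subst h2
    have : (univ.image (fun i => (((Fin.cons 0 (fun _ => t) : Fin 2 → ℕ) i : ℕ) : ZMod 2))) ⊆ {0} := by
      intro z hz
      rw [mem_image] at hz
      obtain ⟨i, -, rfl⟩ := hz
      rw [mem_singleton]
      fin_cases i
      · simp
      · have : ((t : ℕ) : ZMod 2) = 0 := (ZMod.natCast_eq_zero_iff _ _).mpr (even_iff_two_dvd.mp ht)
        simpa using this
    calc _ ≤ ({0} : Finset (ZMod 2)).card := card_le_card this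
      _ < 2 := by simp
  · have h3 : 3 ≤ p := by
      have := hp.two_le
      omega
    calc _ ≤ (univ : Finset (Fin 2)).card := card_image_le
      _ = 2 := by simp
      _ < p := by omega

theorem hl_set (A C : ℕ) {ε : ℝ} (hε : 0 < ε) : ∀ᶠ x : ℕ in atTop, ∀ T : Finset ℕ, T ⊆ Icc 1 x →
    (∀ t ∈ T, Even t) → (x : ℝ) ≤ T.card * Real.log x ^ C →
    ∃ E ⊆ T, (E.card : ℝ) ≤ T.card / Real.log x ^ A ∧ ∀ t ∈ T, t ∉ E →
      |(cnt x t : ℝ) - S2 t * (x / Real.log x ^ 2)| ≤ ε * (S2 t * (x / Real.log x ^ 2)) := by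
  classical
  filter_upwards [hl_energy 1 1 A C le_rfl hε] with x h T hT hev hx
  have hsub : T ⊆ range (x + 1) := fun t ht => by
    have := mem_Icc.mp (hT ht)
    rw [mem_range]; omega
  have hE : EnC 1 C x T := by
    refine ⟨hsub, ?_⟩
    have h1 : (energy 1 T : ℝ) ≤ T.card := by exact_mod_cast energy_one_le T
    calc (x : ℝ) * energy 1 T ≤ (T.card * Real.log x ^ C) * T.card := by gcongr
      _ = (T.card : ℝ) ^ (2 * 1) * Real.log x ^ C := by ring
  obtain ⟨E, hE1, hE2, hE3⟩ := h (fun _ => T) (fun _ => hE) 0 (Nat.zero_le _)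
  refine ⟨E.image (fun u => u 0), ?_, ?_, ?_⟩
  · intro t ht
    rw [mem_image] at ht
    obtain ⟨u, hu, rfl⟩ := ht
    exact Fintype.mem_piFinset.mp (hE1 hu) 0
  · have h1 : ((E.image (fun u => u 0)).card : ℝ) ≤ E.card := by exact_mod_cast card_image_le
    refine h1.trans (hE2.trans (le_of_eq ?_))
    simp
  · intro t ht htE
    have hmem : (fun _ : Fin 1 => t) ∈ Fintype.piFinset (fun _ : Fin 1 => T) :=
      Fintype.mem_piFinset.mpr (fun _ => ht)
    have hnot : (fun _ : Fin 1 => t) ∉ E := fun hc => htE (mem_image.mpr ⟨_, hc, rfl⟩)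
    have ht1 : 1 ≤ t := (mem_Icc.mp (hT ht)).1
    have hinj : Function.Injective (Fin.cons 0 (fun _ => t) : Fin 2 → ℕ) := by
      intro i j hij
      fin_cases i <;> fin_cases j <;> simp at hij ⊢ <;> omega
    have h4 := hE3 _ hmem hnot hinj (nuI_lt (hev t ht))
    have e1 : piT x (Fin.cons 0 (fun _ => t) : Fin 2 → ℕ) = cnt x t := by
      unfold piT cnt
      congr 1
      ext n
      simp only [mem_filter]
      refine and_congr_right fun _ => ?_
      constructor
      · intro hh
        exact ⟨by simpa using hh 0, by simpa using hh 1⟩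
      · rintro ⟨h5, h6⟩ i
        fin_cases i
        · simpa using h5
        · simpa using h6
    rw [e1] at h4
    exact h4

lemma S2_ge {t : ℕ} (ht : Even t) (ht1 : 1 ≤ t) : c0 2 ≤ S2 t := by
  have hinj : Function.Injective (Fin.cons 0 (fun _ => t) : Fin 2 → ℕ) := by
    intro i j hij
    fin_cases i <;> fin_cases j <;> simp at hij ⊢ <;> omega
  have h := c0_le_SI (Fin.cons 0 (fun _ => t) : Fin 2 → ℕ) hinj (by simp) (nuI_lt ht)
  rw [Fintype.card_fin] at h
  exact h

end Pool.Agent.Pec7
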