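import Pool.Agent.Lib.Pec7.Thr

/-!
# `p_(p_n) ≤ n (log n)^3` for large `n`
-/

set_option autoImplicit false

open Finset Filter

namespace Pool.Agent.Pec7

/-- `p_j ≤ 4 j log j` for large `j` -/
theorem pr_le_log : ∃ J : ℕ, 2 ≤ J ∧ ∀ j : ℕ, J ≤ j → (pr j : ℝ) ≤ 4 * j * Real.log j := by
  have h1 : ∀ᶠ j : ℕ in atTop, Real.log (Real.log (j : ℝ)) ≤ 1 / 10 * Real.log j := by
    have h := (Real.isLittleO_log_id_atTop).bound (show (0 : ℝ) < 1 / 10 by norm_num)
    have h' := (tendsto_log_nat'.eventually h)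
    filter_upwards [h', tendsto_log_nat'.eventually_ge_atTop 1] with j hj h1
    simp only [id, Real.norm_eq_abs] at hj
    have h0 : 0 ≤ Real.log (Real.log (j : ℝ)) := Real.log_nonneg h1
    rwa [abs_of_nonneg h0, abs_of_nonneg (by linarith)] at hj
  obtain ⟨J, hJ⟩ := eventually_atTop.mp (h1.and (tendsto_log_nat'.eventually_ge_atTop 20))
  refine ⟨max J 2, le_max_right _ _, fun j hj => ?_⟩
  obtain ⟨hll, hL⟩ := hJ j ((le_max_left _ _).trans hj)
  have hj2 : 2 ≤ j := (le_max_right _ _).trans hj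
  have hjr : (2 : ℝ) ≤ j := by exact_mod_cast hj2
  set L := Real.log (j : ℝ) with hLdef
  set N := ⌈3 * (j : ℝ) * L⌉₊ with hN
  have hNlo : 3 * (j : ℝ) * L ≤ N := Nat.le_ceil _
  have hNhi : (N : ℝ) ≤ 3 * j * L + 1 := (Nat.ceil_lt_add_one (by positivity)).le
  have hjL : 40 ≤ (j : ℝ) * L := by nlinarith
  have hN4 : (N : ℝ) + 1 ≤ 4 * j * L := by linarith
  have hN0 : (0 : ℝ) < N := by linarith
  have hN2 : (2 : ℝ) ≤ N := by linarith
  have e1 : Real.log ((N : ℝ) + 1) ≤ 12 / 10 * L := by
    calc Real.log ((N : ℝ) + 1) ≤ Real.log (4 * j * L) := Real.log_le_log (by linarith) hN4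
      _ = Real.log 4 + L + Real.log L := by
          rw [Real.log_mul (by positivity) (by positivity), Real.log_mul (by norm_num) (by positivity)]
      _ ≤ 12 / 10 * L := by
          have h4 : Real.log 4 ≤ 2 := by
            have : (4 : ℝ) = 2 ^ 2 := by norm_num
            rw [this, Real.log_pow]
            have := Real.log_two_lt_d9
            push_cast
            linarith
          linarith
  have e2 : Real.log (N : ℝ) ≤ 12 / 10 * L := (Real.log_le_log hN0 (by linarith)).trans e1
  have e3 : 0 < Real.log (N : ℝ) := Real.log_pos (by linarith)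
  have h := Chebyshev.pi_ge N
  have hl2 := Real.log_two_gt_d9
  have hl2' := Real.log_two_lt_d9
  have h3 : (j : ℝ) ≤ ((N : ℝ) * Real.log 2 - Real.log ((N : ℝ) + 1)) / Real.log N := by
    rw [le_div_iff₀ e3]
    calc (j : ℝ) * Real.log N ≤ j * (12 / 10 * L) := by gcongr
      _ ≤ 3 * j * L * Real.log 2 - 12 / 10 * L := by nlinarith
      _ ≤ N * Real.log 2 - Real.log ((N : ℝ) + 1) := by nlinarith
  have h4 : j ≤ Nat.primeCounting N := by exact_mod_cast h3.trans h
  have h5 : pr j ≤ N := by
    unfold pr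
    have : j - 1 < Nat.count Nat.Prime (N + 1) := by
      unfold Nat.primeCounting Nat.primeCounting' at h4
      omega
    have := Nat.nth_lt_of_lt_count this
    omega
  have h6 : (pr j : ℝ) ≤ N := by exact_mod_cast h5
  linarith

theorem prpr_size : ∀ᶠ n : ℕ in atTop, (pr (pr n) : ℝ) ≤ n * Real.log n ^ 3 := by
  obtain ⟨J, hJ2, hJ⟩ := pr_le_log
  filter_upwards [eventually_ge_atTop J, tendsto_log_nat'.eventually_ge_atTop 40,
    tendsto_log_nat'.eventually ((Real.isLittleO_log_id_atTop).bound (show (0 : ℝ) < 1 / 10 by norm_num))]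
    with n h1 h2 h3
  have hn : 1 ≤ n := by omega
  have hnr : (1 : ℝ) ≤ n := by exact_mod_cast hn
  set L := Real.log (n : ℝ) with hL
  simp only [id, Real.norm_eq_abs] at h3
  have hll0 : 0 ≤ Real.log L := Real.log_nonneg (by linarith)
  rw [abs_of_nonneg hll0, abs_of_nonneg (by linarith)] at h3
  have a1 := hJ n h1
  have a2 : n < pr n := lt_pr hn
  have a3 := hJ (pr n) (by omega)
  have hp0 : (0 : ℝ) < pr n := by
    have : 0 < pr n := by omega
    exact_mod_cast this
  have a4 : Real.log (pr n : ℝ) ≤ 2 * L := by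
    calc Real.log (pr n : ℝ) ≤ Real.log (4 * n * L) := Real.log_le_log hp0 a1
      _ = Real.log 4 + L + Real.log L := by
          rw [Real.log_mul (by positivity) (by positivity), Real.log_mul (by norm_num) (by positivity)]
      _ ≤ 2 * L := by
          have h4 : Real.log 4 ≤ 2 := by
            have : (4 : ℝ) = 2 ^ 2 := by norm_num
            rw [this, Real.log_pow]
            have := Real.log_two_lt_d9
            push_cast
            linarith
          linarith
  have a5 : 0 ≤ Real.log (pr n : ℝ) := Real.log_natCast_nonneg _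
  calc (pr (pr n) : ℝ) ≤ 4 * pr n * Real.log (pr n) := a3
    _ ≤ 4 * (4 * n * L) * (2 * L) := by gcongr
    _ = n * (L ^ 2 * 32) := by ring
    _ ≤ n * (L ^ 2 * L) := by gcongr; linarith
    _ = n * L ^ 3 := by ring

end Pool.Agent.Pec7
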