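import Pool.Agent.Lib.SHZ.All0
import Pool.Agent.Lib.Pec7.Set
import Pool.Agent.Lib.Pec7.Size

/-!
# Long ranges: almost all shifts `t ≤ X`, all `D ≥ X` with `D^(1/6 + ε) ≤ X`
-/

set_option autoImplicit false

open Finset Filter

namespace Pool.Agent.Pec7

open Pool.Agent.HLB Pool.Agent.HLT Pool.Agent.HLU Pool.Agent.SHZ Pool.Agent.Lib.Sieve4

theorem hl_long (A : ℕ) (ε : ℝ) (hε : 0 < ε) : ∃ x₀ : ℕ, ∀ X : ℕ, x₀ ≤ X → ∃ E ⊆ Icc 1 X,
    (E.card : ℝ) ≤ X / Real.log X ^ A ∧ ∀ t ∈ Icc 1 X, t ∉ E → Even t → ∀ D : ℕ, X ≤ D →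
      ((2 * D : ℕ) : ℝ) ^ (1 / 6 + ε) ≤ X →
      (cnt D t : ℝ) + c0 2 / 2 * (D / Real.log D ^ 2) ≤ cnt (2 * D) t := by
  classical
  obtain ⟨x0, h⟩ := long_x0 1 (A + 3) ε hε
  have hc0 : 0 < c0 2 := c0_pos 2 (by norm_num)
  obtain ⟨x1, h1⟩ := eventually_atTop.mp (tendsto_log_nat'.eventually_ge_atTop (22 + 10 / c0 2))
  refine ⟨max x0 (max x1 1), fun X hX => ?_⟩
  have hX0 : x0 ≤ X := (le_max_left _ _).trans hX
  have hX1 : x1 ≤ X := ((le_max_left _ _).trans (le_max_right _ _)).trans hX
  have hXp : 1 ≤ X := ((le_max_right _ _).trans (le_max_right _ _)).trans hX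
  have hLX := h1 X hX1
  have hdiv : 0 < 10 / c0 2 := by positivity
  have hXr : (0 : ℝ) < X := by exact_mod_cast hXp
  obtain ⟨E, hE1, hE2, hE3⟩ := h X hX0
  refine ⟨E.image (fun u => u 0), ?_, ?_, ?_⟩
  · intro t ht
    rw [mem_image] at ht
    obtain ⟨u, hu, rfl⟩ := ht
    exact Fintype.mem_piFinset.mp (hE1 hu) 0
  · have h2 : ((E.image (fun u => u 0)).card : ℝ) ≤ E.card := by exact_mod_cast card_image_le
    refine h2.trans (hE2.trans ?_)
    rw [pow_one]
    have : Real.log X ^ A ≤ Real.log X ^ (A + 3) := pow_le_pow_right₀ (by linarith) (by omega)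
    have hp : 0 < Real.log X ^ A := by
      have : 0 < Real.log (X : ℝ) := by linarith
      positivity
    gcongr
  · intro t ht htE hte D hXD hD
    have hmem : (fun _ : Fin 1 => t) ∈ Fintype.piFinset (fun _ : Fin 1 => Icc 1 X) :=
      Fintype.mem_piFinset.mpr (fun _ => ht)
    have hnot : (fun _ : Fin 1 => t) ∉ E := fun hc => htE (mem_image.mpr ⟨_, hc, rfl⟩)
    have ht1 : 1 ≤ t := (mem_Icc.mp ht).1
    have htX : t ≤ X := (mem_Icc.mp ht).2
    have hinj : Function.Injective (fun _ : Fin 1 => t) := by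
      intro i j _
      exact Subsingleton.elim _ _
    have hA := hE3 _ hmem hnot hinj (2 * D) (by omega) hD
    have g2 := hA (2 * D) le_rfl
    have g1 := hA D (by omega)
    unfold HLy at g1 g2
    have e1 : ∀ y : ℕ, ((Icc 1 y).filter (fun n : ℕ => ∀ i, (n + (Fin.cons 0 (fun _ => t) : Fin 2 → ℕ) i).Prime)).card
        = cnt y t := by
      intro y
      unfold cnt
      congr 1
      ext n
      simp only [mem_filter]
      refine and_congr_right fun _ => ?_
      constructor
      · intro hh
        exact ⟨by simpa using hh 0, by simpa using hh 1⟩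
      · rintro ⟨h5, h6⟩ i
        fin_cases i
        · simpa using h5
        · simpa using h6
    rw [e1] at g1 g2
    have hS : SI (Fin.cons 0 (fun _ => t) : Fin 2 → ℕ) = S2 t := rfl
    rw [hS] at g1 g2
    rw [abs_le] at g1 g2
    have hSge := S2_ge hte ht1
    have hDr : (0 : ℝ) < D := by
      have : 0 < D := by omega
      exact_mod_cast this
    have hLD : 22 + 10 / c0 2 ≤ Real.log D := hLX.trans (Real.log_le_log hXr (by exact_mod_cast hXD))
    set L := Real.log (D : ℝ) with hL
    have hL20 : 22 ≤ L := by linarith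
    have hsum : ∑ n ∈ Icc 2 (2 * D), hl univ (Fin.cons 0 (fun _ => t) : Fin 2 → ℕ) n =
        ∑ n ∈ Icc 2 D, hl univ (Fin.cons 0 (fun _ => t) : Fin 2 → ℕ) n +
        ∑ n ∈ Ioc D (2 * D), hl univ (Fin.cons 0 (fun _ => t) : Fin 2 → ℕ) n := by
      rw [← sum_union]
      · congr 1
        ext n
        simp only [mem_union, mem_Icc, mem_Ioc]
        have hD2 : 1 ≤ D := by omega
        constructor
        · intro hn
          by_cases hc : n ≤ D
          · left; omega
          · right; omega
        · intro hn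
          rcases hn with hn | hn
          · omega
          · omega
      · rw [disjoint_left]
        intro n hn hn'
        rw [mem_Icc] at hn
        rw [mem_Ioc] at hn'
        omega
    have h3D : Real.log (3 * (D : ℝ)) ≤ L + 11 / 10 := by
      rw [Real.log_mul (by norm_num) hDr.ne']
      have : Real.log 3 ≤ 11 / 10 := by
        rw [Real.log_le_iff_le_exp (by norm_num)]
        have h1 := Real.add_one_le_exp (1 / 10 : ℝ)
        have h2 := Real.exp_one_gt_d9
        have h3 : Real.exp (11 / 10) = Real.exp 1 * Real.exp (1 / 10) := by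
          rw [← Real.exp_add]; norm_num
        rw [h3]
        have h4 := Real.quadratic_le_exp_of_nonneg (show (0 : ℝ) ≤ 1 / 10 by norm_num)
        nlinarith
      linarith
    have hlow : (D : ℝ) * (1 / (L + 11 / 10) ^ 2) ≤
        ∑ n ∈ Ioc D (2 * D), hl univ (Fin.cons 0 (fun _ => t) : Fin 2 → ℕ) n := by
      calc (D : ℝ) * (1 / (L + 11 / 10) ^ 2) = ∑ _n ∈ Ioc D (2 * D), 1 / (L + 11 / 10) ^ 2 := by
            rw [sum_const, Nat.card_Ioc, nsmul_eq_mul]
            congr 2
            omega
        _ ≤ _ := by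
            refine sum_le_sum (fun n hn => ?_)
            rw [mem_Ioc] at hn
            unfold hl
            rw [Fin.prod_univ_two]
            simp only [Fin.cons_zero, Fin.cons_one, Nat.add_zero]
            have hn0 : (0 : ℝ) < n := by
              have : 0 < n := by omega
              exact_mod_cast this
            have hnD : (D : ℝ) ≤ n := by exact_mod_cast hn.1.le
            have b1 : L ≤ Real.log (n : ℝ) := Real.log_le_log hDr hnD
            have b2 : Real.log (n : ℝ) ≤ L + 11 / 10 := by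
              refine le_trans (Real.log_le_log hn0 ?_) h3D
              have : ((n : ℕ) : ℝ) ≤ ((3 * D : ℕ) : ℝ) := by exact_mod_cast (by omega : n ≤ 3 * D)
              push_cast at this
              exact this
            have b3 : L ≤ Real.log ((n + t : ℕ) : ℝ) := by
              refine Real.log_le_log hDr ?_
              exact_mod_cast (by omega : D ≤ n + t)
            have b4 : Real.log ((n + t : ℕ) : ℝ) ≤ L + 11 / 10 := by
              refine le_trans (Real.log_le_log ?_ ?_) h3D
              · have : 0 < n + t := by omega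
                exact_mod_cast this
              · have : ((n + t : ℕ) : ℝ) ≤ ((3 * D : ℕ) : ℝ) := by
                  exact_mod_cast (by omega : n + t ≤ 3 * D)
                push_cast at this ⊢
                linarith
            rw [one_div_mul_one_div, sq]
            have p1 : 0 < Real.log (n : ℝ) := by linarith
            have p2 : 0 < Real.log ((n + t : ℕ) : ℝ) := by linarith
            gcongr
    have he : ((2 * D : ℕ) : ℝ) / Real.log ((2 * D : ℕ) : ℝ) ^ (A + 3) ≤ 2 * D / L ^ 3 := by
      have q1 : L ≤ Real.log ((2 * D : ℕ) : ℝ) := Real.log_le_log hDr (by push_cast; linarith)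
      have q2 : L ^ 3 ≤ Real.log ((2 * D : ℕ) : ℝ) ^ (A + 3) := by
        calc L ^ 3 ≤ L ^ (A + 3) := pow_le_pow_right₀ (by linarith) (by omega)
          _ ≤ _ := by gcongr
      push_cast at q2 ⊢
      gcongr
    have hS0 : 0 < S2 t := lt_of_lt_of_le hc0 hSge
    have hfin : c0 2 / 2 * (D / L ^ 2) + 2 * (2 * D / L ^ 3) ≤ S2 t * ((D : ℝ) * (1 / (L + 11 / 10) ^ 2)) := by
      have r1 : 9 / 10 * (1 / L ^ 2) ≤ 1 / (L + 11 / 10) ^ 2 := by
        rw [show (9 : ℝ) / 10 * (1 / L ^ 2) = 9 / (10 * L ^ 2) by field_simp,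
          div_le_div_iff₀ (by positivity) (by positivity)]
        nlinarith
      have r2 : 2 * (2 * (D : ℝ) / L ^ 3) ≤ 4 / 10 * c0 2 * (D / L ^ 2) := by
        have r3 : 10 ≤ c0 2 * L := by
          have : 10 / c0 2 ≤ L := by linarith
          rw [div_le_iff₀ hc0] at this
          linarith
        have r4 : 2 * (2 * (D : ℝ) / L ^ 3) = 4 / 10 * (10 / L) * (D / L ^ 2) := by
          field_simp
          ring
        rw [r4]
        have r5 : 10 / L ≤ c0 2 := by
          rw [div_le_iff₀ (by linarith)]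
          exact r3
        gcongr
      have r6 : c0 2 * ((D : ℝ) * (9 / 10 * (1 / L ^ 2))) ≤ S2 t * ((D : ℝ) * (1 / (L + 11 / 10) ^ 2)) := by
        gcongr
      have r7 : c0 2 * ((D : ℝ) * (9 / 10 * (1 / L ^ 2))) = 9 / 10 * c0 2 * (D / L ^ 2) := by
        ring
      linarith
    have hm := mul_le_mul_of_nonneg_left hlow hS0.le
    rw [hsum] at g2
    linarith [g1.1, g1.2, g2.1, g2.2]

end Pool.Agent.Pec7
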