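import Pool.Agent.Lib.Pec7.Upper

/-!
# Lower bound for the threshold
-/

set_option autoImplicit false

open Finset Filter

namespace Pool.Agent.Pec7

theorem le_pi_sq : ∃ J : ℕ, 2 ≤ J ∧ ∀ j : ℕ, J ≤ j → j ≤ Nat.primeCounting (j ^ 2) := by
  have h1 : ∀ᶠ j : ℕ in atTop, Real.log (j : ℝ) ≤ 1 / 10 * j := by
    have h := (Real.isLittleO_log_id_atTop).bound (show (0 : ℝ) < 1 / 10 by norm_num)
    filter_upwards [tendsto_natCast_atTop_atTop.eventually h, eventually_ge_atTop 1] with j hj h1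
    simp only [id, Real.norm_eq_abs] at hj
    have h0 : 0 ≤ Real.log (j : ℝ) := Real.log_natCast_nonneg j
    have h2 : (0 : ℝ) ≤ j := Nat.cast_nonneg j
    rwa [abs_of_nonneg h0, abs_of_nonneg h2] at hj
  obtain ⟨J, hJ⟩ := eventually_atTop.mp h1
  refine ⟨max J 10, (by norm_num : 2 ≤ 10).trans (le_max_right _ _), fun j hj => ?_⟩
  have hl := hJ j ((le_max_left _ _).trans hj)
  have hj10 : 10 ≤ j := (le_max_right _ _).trans hj
  have hjr : (10 : ℝ) ≤ j := by exact_mod_cast hj10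
  have h := Chebyshev.pi_ge (j ^ 2)
  have e1 : Real.log ((j ^ 2 : ℕ) : ℝ) = 2 * Real.log j := by
    push_cast
    rw [Real.log_pow]
    push_cast
    ring
  have hlog : 0 < Real.log (j : ℝ) := Real.log_pos (by linarith)
  have e2 : Real.log (((j ^ 2 : ℕ) : ℝ) + 1) ≤ 2 * Real.log j + 1 := by
    have : (((j ^ 2 : ℕ) : ℝ) + 1) ≤ (j : ℝ) ^ 2 * 2 := by
      push_cast
      nlinarith
    calc Real.log (((j ^ 2 : ℕ) : ℝ) + 1) ≤ Real.log ((j : ℝ) ^ 2 * 2) :=
          Real.log_le_log (by positivity) this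
      _ = 2 * Real.log j + Real.log 2 := by
          rw [Real.log_mul (by positivity) (by norm_num), Real.log_pow]
          push_cast
          ring
      _ ≤ _ := by
          have := Real.log_two_lt_d9
          linarith
  have h3 : (j : ℝ) ≤ (((j ^ 2 : ℕ) : ℝ) * Real.log 2 - Real.log (((j ^ 2 : ℕ) : ℝ) + 1)) /
      Real.log ((j ^ 2 : ℕ) : ℝ) := by
    rw [e1, le_div_iff₀ (by linarith)]
    have hl2 := Real.log_two_gt_d9
    push_cast at e2 ⊢
    nlinarith
  exact_mod_cast h3.trans h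

theorem pr_le_sq : ∃ J : ℕ, 2 ≤ J ∧ ∀ j : ℕ, J ≤ j → pr j ≤ j ^ 2 := by
  obtain ⟨J, hJ2, hJ⟩ := le_pi_sq
  refine ⟨J, hJ2, fun j hj => ?_⟩
  have h := hJ j hj
  unfold pr
  have : j - 1 < Nat.count Nat.Prime (j ^ 2 + 1) := by
    unfold Nat.primeCounting Nat.primeCounting' at h
    omega
  have := Nat.nth_lt_of_lt_count this
  omega

/-- `p_(p_n) ≤ X` for `n ≤ 2 (log X)^2` -/
theorem prpr_le : ∀ᶠ X : ℕ in atTop, ∀ n : ℕ, 1 ≤ n → (n : ℝ) ≤ 2 * Real.log X ^ 2 → pr (pr n) ≤ X := by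
  obtain ⟨J, hJ2, hJ⟩ := pr_le_sq
  have hpow : ∀ᶠ X : ℕ in atTop, Real.log (X : ℝ) ^ 8 ≤ 1 / 16 * X := by
    have h := (Real.isLittleO_pow_log_id_atTop (n := 8)).bound (show (0 : ℝ) < 1 / 16 by norm_num)
    filter_upwards [tendsto_natCast_atTop_atTop.eventually h] with X hX
    simp only [id, Real.norm_eq_abs] at hX
    have h0 : 0 ≤ Real.log (X : ℝ) := Real.log_natCast_nonneg X
    rwa [abs_of_nonneg (by positivity), abs_of_nonneg (by positivity)] at hX
  filter_upwards [hpow, tendsto_log_nat'.eventually_ge_atTop (J : ℝ)] with X h1 h2 n hn hnX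
  have hJ1 : (2 : ℝ) ≤ J := by exact_mod_cast hJ2
  set m := max n J with hm
  have hmn : n ≤ m := le_max_left _ _
  have hmJ : J ≤ m := le_max_right _ _
  have hmX : (m : ℝ) ≤ 2 * Real.log X ^ 2 := by
    have : (J : ℝ) ≤ 2 * Real.log X ^ 2 := by nlinarith
    rw [hm, Nat.cast_max]
    exact max_le hnX this
  have h3 : pr (pr n) ≤ pr (pr m) := pr_le (pr_prime _).one_lt.le (pr_le hn hmn)
  have h4 : m < pr m := lt_pr (by omega)
  have h5 := hJ m hmJ
  have h6 := hJ (pr m) (by omega)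
  have h7 : pr (pr m) ≤ (m ^ 2) ^ 2 := h6.trans (Nat.pow_le_pow_left h5 2)
  have h8 : (((m ^ 2) ^ 2 : ℕ) : ℝ) ≤ X := by
    have hm0 : (0 : ℝ) ≤ m := Nat.cast_nonneg m
    calc (((m ^ 2) ^ 2 : ℕ) : ℝ) = (m : ℝ) ^ 4 := by push_cast; ring
      _ ≤ (2 * Real.log X ^ 2) ^ 4 := pow_le_pow_left₀ hm0 hmX 4
      _ = 16 * Real.log X ^ 8 := by ring
      _ ≤ X := by linarith
  have h9 : (m ^ 2) ^ 2 ≤ X := by exact_mod_cast h8
  omega

/-- the number of `d ≤ X` for which `n` is `d`-representable -/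
noncomputable def rep (n X : ℕ) : ℕ := Set.ncard {d : ℕ | 1 ≤ d ∧ d ≤ X ∧ Representable d n}

theorem rep_upper : ∃ C : ℝ, 0 < C ∧ ∀ᶠ X : ℕ in atTop, ∀ n : ℕ, 1 ≤ n → pr (pr n) ≤ X →
    (rep n X : ℝ) ≤ C * Real.log (Real.log X) ^ 2 * (X / Real.log X + n * (X / Real.log X ^ 2)) := by
  classical
  obtain ⟨C, hC, h⟩ := tuple_bound 2 (by norm_num)
  refine ⟨C, hC, ?_⟩
  filter_upwards [h, tendsto_log_nat'.eventually_ge_atTop 20] with X hX hL n hn hnX
  set lam := Real.log (Real.log (X : ℝ)) with hlam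
  have hlam0 : 0 ≤ lam := Real.log_nonneg (by linarith)
  set Q : ℕ → Finset ℕ := fun k =>
    (Icc 1 X).filter (fun d => ∀ i, ((![pr k, pr (pr (n - k))] : Fin 2 → ℕ) i + 2 * d).Prime) with hQ
  have hsub : {d : ℕ | 1 ≤ d ∧ d ≤ X ∧ Representable d n} ⊆ ((Icc 1 (n - 1)).biUnion Q : Finset ℕ) := by
    rintro d ⟨hd1, hd2, k, m, hk, hm, hkm, hp1, hp2⟩
    rw [mem_coe, mem_biUnion]
    refine ⟨k, mem_Icc.mpr ⟨hk, by omega⟩, ?_⟩
    rw [hQ, mem_filter, mem_Icc]
    refine ⟨⟨hd1, hd2⟩, fun i => ?_⟩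
    have e : n - k = m := by omega
    fin_cases i
    · exact hp1
    · show (pr (pr (n - k)) + 2 * d).Prime
      rw [e]
      exact hp2
  have h1 : rep n X ≤ ∑ k ∈ Icc 1 (n - 1), (Q k).card := by
    unfold rep
    calc _ ≤ Set.ncard (((Icc 1 (n - 1)).biUnion Q : Finset ℕ) : Set ℕ) :=
          Set.ncard_le_ncard hsub (finite_toSet _)
      _ = ((Icc 1 (n - 1)).biUnion Q).card := Set.ncard_coe_finset _
      _ ≤ _ := card_biUnion_le
  have h1r : (rep n X : ℝ) ≤ ∑ k ∈ Icc 1 (n - 1), ((Q k).card : ℝ) := by exact_mod_cast h1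
  refine h1r.trans ?_
  have hb : ∀ k ∈ Icc 1 (n - 1), ((Q k).card : ℝ) ≤
      C * lam ^ 2 * (X / Real.log X ^ (univ.image (![pr k, pr (pr (n - k))] : Fin 2 → ℕ)).card) := by
    intro k hk
    rw [mem_Icc] at hk
    refine hX _ (fun i => ?_)
    have a1 : pr k ≤ pr (pr n) := by
      have b1 : pr k ≤ pr n := pr_le hk.1 (by omega)
      have b2 := lt_pr (pr_prime n).one_lt.le
      omega
    have a2 : pr (pr (n - k)) ≤ pr (pr n) :=
      pr_le (pr_prime _).one_lt.le (pr_le (by omega) (by omega))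
    fin_cases i
    · exact a1.trans hnX
    · exact a2.trans hnX
  have hc1 : ∀ k, 1 ≤ (univ.image (![pr k, pr (pr (n - k))] : Fin 2 → ℕ)).card := by
    intro k
    rw [Nat.one_le_iff_ne_zero, Finset.card_ne_zero]
    exact ⟨_, mem_image_of_mem _ (mem_univ 0)⟩
  have hc2 : ∀ k, pr k ≠ pr (pr (n - k)) →
      2 ≤ (univ.image (![pr k, pr (pr (n - k))] : Fin 2 → ℕ)).card := by
    intro k hk
    have hs : ({pr k, pr (pr (n - k))} : Finset ℕ) ⊆
        univ.image (![pr k, pr (pr (n - k))] : Fin 2 → ℕ) := by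
      intro x hx
      rw [mem_insert, mem_singleton] at hx
      rw [mem_image]
      rcases hx with rfl | rfl
      · exact ⟨0, mem_univ _, rfl⟩
      · exact ⟨1, mem_univ _, rfl⟩
    have := card_le_card hs
    rwa [card_pair hk] at this
  set B := (Icc 1 (n - 1)).filter (fun k => pr k = pr (pr (n - k))) with hB
  have hBc : B.card ≤ 1 := by
    rw [card_le_one]
    have key : ∀ a ∈ B, ∀ b ∈ B, ¬ a < b := by
      intro a ha b hb hab
      rw [hB, mem_filter, mem_Icc] at ha hb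
      have e1 : a = pr (n - a) := pr_inj ha.1.1 (pr_prime _).one_lt.le ha.2
      have e2 : b = pr (n - b) := pr_inj hb.1.1 (pr_prime _).one_lt.le hb.2
      have e3 : pr (n - b) < pr (n - a) := pr_lt (by omega) (by omega)
      omega
    intro a ha b hb
    rcases lt_trichotomy a b with h | h | h
    · exact absurd h (key a ha b hb)
    · exact h
    · exact absurd h (key b hb a ha)
  rw [← sum_filter_add_sum_filter_not (Icc 1 (n - 1)) (fun k => pr k = pr (pr (n - k)))]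
  have hL1 : (1 : ℝ) ≤ Real.log X := by linarith
  have s1 : ∑ k ∈ B, ((Q k).card : ℝ) ≤ C * lam ^ 2 * (X / Real.log X) := by
    calc ∑ k ∈ B, ((Q k).card : ℝ) ≤ ∑ _k ∈ B, C * lam ^ 2 * (X / Real.log X) := by
          refine sum_le_sum (fun k hk => ?_)
          refine (hb k (mem_filter.mp hk).1).trans ?_
          have : Real.log X ≤ Real.log X ^ (univ.image (![pr k, pr (pr (n - k))] : Fin 2 → ℕ)).card := by
            calc Real.log X = Real.log X ^ 1 := (pow_one _).symm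
              _ ≤ _ := pow_le_pow_right₀ hL1 (hc1 k)
          gcongr
      _ = B.card * (C * lam ^ 2 * (X / Real.log X)) := by rw [sum_const, nsmul_eq_mul]
      _ ≤ 1 * (C * lam ^ 2 * (X / Real.log X)) := by
          have : (B.card : ℝ) ≤ 1 := by exact_mod_cast hBc
          gcongr
      _ = _ := one_mul _
  have s2 : ∑ k ∈ (Icc 1 (n - 1)).filter (fun k => ¬ pr k = pr (pr (n - k))), ((Q k).card : ℝ) ≤
      C * lam ^ 2 * (n * (X / Real.log X ^ 2)) := by
    calc _ ≤ ∑ _k ∈ (Icc 1 (n - 1)).filter (fun k => ¬ pr k = pr (pr (n - k))),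
            C * lam ^ 2 * (X / Real.log X ^ 2) := by
          refine sum_le_sum (fun k hk => ?_)
          rw [mem_filter] at hk
          refine (hb k hk.1).trans ?_
          have := pow_le_pow_right₀ hL1 (hc2 k hk.2)
          gcongr
      _ = ((Icc 1 (n - 1)).filter (fun k => ¬ pr k = pr (pr (n - k)))).card *
            (C * lam ^ 2 * (X / Real.log X ^ 2)) := by rw [sum_const, nsmul_eq_mul]
      _ ≤ n * (C * lam ^ 2 * (X / Real.log X ^ 2)) := by
          have h0 : ((Icc 1 (n - 1)).filter (fun k => ¬ pr k = pr (pr (n - k)))).card ≤ n := by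
            refine (card_filter_le _ _).trans ?_
            rw [Nat.card_Icc]
            omega
          have : (((Icc 1 (n - 1)).filter (fun k => ¬ pr k = pr (pr (n - k)))).card : ℝ) ≤ n := by
            exact_mod_cast h0
          gcongr
      _ = _ := by ring
  calc _ ≤ C * lam ^ 2 * (X / Real.log X) + C * lam ^ 2 * (n * (X / Real.log X ^ 2)) :=
        add_le_add s1 s2
    _ = _ := by ring

end Pool.Agent.Pec7
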