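import Pool.Agent.Lib.Pec7.Thr

/-!
# Lower bound for the threshold, with a triple logarithm
-/

set_option autoImplicit false

open Finset Filter

namespace Pool.Agent.Pec7

/-- `p_(p_n) ≤ 16 (log X)^8` for `n ≤ 2 (log X)^2` -/
theorem prpr_le8 : ∀ᶠ X : ℕ in atTop, ∀ n : ℕ, 1 ≤ n → (n : ℝ) ≤ 2 * Real.log X ^ 2 →
    ((pr (pr n) : ℕ) : ℝ) ≤ 16 * Real.log X ^ 8 := by
  obtain ⟨J, hJ2, hJ⟩ := pr_le_sq
  filter_upwards [tendsto_log_nat'.eventually_ge_atTop (J : ℝ)] with X h2 n hn hnX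
  have hJ1 : (2 : ℝ) ≤ J := by exact_mod_cast hJ2
  set m := max n J with hm
  have hmn : n ≤ m := le_max_left _ _
  have hmJ : J ≤ m := le_max_right _ _
  have hmX : (m : ℝ) ≤ 2 * Real.log X ^ 2 := by
    have : (J : ℝ) ≤ 2 * Real.log X ^ 2 := by nlinarith
    rw [hm, Nat.cast_max]
    exact max_le hnX this
  have h3 : pr (pr n) ≤ pr (pr m) := pr_le (pr_prime _).one_lt.le (pr_le hn hmn)
  have h4 : m < pr m := lt_pr (by omega)
  have h5 := hJ m hmJ
  have h6 := hJ (pr m) (by omega)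
  have h7 : pr (pr m) ≤ (m ^ 2) ^ 2 := h6.trans (Nat.pow_le_pow_left h5 2)
  have h8 : (((m ^ 2) ^ 2 : ℕ) : ℝ) ≤ 16 * Real.log X ^ 8 := by
    have hm0 : (0 : ℝ) ≤ m := Nat.cast_nonneg m
    calc (((m ^ 2) ^ 2 : ℕ) : ℝ) = (m : ℝ) ^ 4 := by push_cast; ring
      _ ≤ (2 * Real.log X ^ 2) ^ 4 := pow_le_pow_left₀ hm0 hmX 4
      _ = 16 * Real.log X ^ 8 := by ring
  have h9 : ((pr (pr n) : ℕ) : ℝ) ≤ (((m ^ 2) ^ 2 : ℕ) : ℝ) := by exact_mod_cast h3.trans h7
  exact h9.trans h8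

lemma tendsto_logloglog : Tendsto (fun x : ℕ => Real.log (Real.log (Real.log (x : ℝ)))) atTop atTop :=
  Real.tendsto_log_atTop.comp (Real.tendsto_log_atTop.comp tendsto_log_nat')

/-- upper bound for tuples of small numbers -/
theorem small_bound (r : ℕ) (hr : 1 ≤ r) : ∃ C : ℝ, 0 < C ∧ ∀ᶠ X : ℕ in atTop,
    ∀ t : Fin r → ℕ, Function.Injective t → (∀ i, (t i : ℝ) ≤ 16 * Real.log X ^ 8) →
    (((Icc 1 X).filter (fun d => ∀ i, (t i + 2 * d).Prime)).card : ℝ) ≤
      C * Real.log (Real.log (Real.log X)) ^ (r - 1) * (X / Real.log X ^ r) := by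
  obtain ⟨K, hK, hup⟩ := HLB.tuple_upperI r hr
  obtain ⟨C1, hC1, hSI⟩ := AS.SI_upper r 0 hr
  refine ⟨K * C1 * 2 ^ (r - 1) * 2 + 1, by positivity, ?_⟩
  have hy : Tendsto (fun X : ℕ => ⌈16 * Real.log (X : ℝ) ^ 8⌉₊) atTop atTop := by
    refine tendsto_nat_ceil_atTop.comp ?_
    refine Tendsto.const_mul_atTop (by norm_num) ?_
    exact (tendsto_pow_atTop (by norm_num)).comp tendsto_log_nat'
  have hpow : ∀ᶠ X : ℕ in atTop, Real.log (X : ℝ) ^ r ≤ 1 / r * X := by
    have hr0 : (0 : ℝ) < r := by exact_mod_cast hr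
    have h := (Real.isLittleO_pow_log_id_atTop (n := r)).bound (show (0 : ℝ) < 1 / r by positivity)
    filter_upwards [tendsto_natCast_atTop_atTop.eventually h] with X hX
    simp only [id, Real.norm_eq_abs] at hX
    have h0 : 0 ≤ Real.log (X : ℝ) := Real.log_natCast_nonneg X
    rwa [abs_of_nonneg (by positivity), abs_of_nonneg (by positivity)] at hX
  filter_upwards [hy.eventually hSI, hpow, tendsto_log_nat'.eventually_ge_atTop 20,
    (Real.tendsto_log_atTop.comp tendsto_log_nat').eventually_ge_atTop 9,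
    tendsto_logloglog.eventually_ge_atTop 1, eventually_ge_atTop 1] with X h1 h2 hL hLL hLLL hX1 t ht htX
  simp only [Function.comp_apply] at hLL
  have hXr : (1 : ℝ) ≤ X := by exact_mod_cast hX1
  have hr0 : (0 : ℝ) < r := by exact_mod_cast hr
  set L := Real.log (X : ℝ) with hLdef
  have hL0 : 0 < L := by linarith
  set T := Real.log (Real.log L) with hT
  have hT1 : 1 ≤ T ^ (r - 1) := one_le_pow₀ hLLL
  have hcard : (((Icc 1 X).filter (fun d => ∀ i, (t i + 2 * d).Prime)).card : ℝ) ≤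
      HLB.cnt t (2 * X) := by exact_mod_cast count_le X t
  refine hcard.trans ?_
  by_cases hadm : ∀ p : ℕ, p.Prime → HLB.nuI t p < p
  · have h3 := hup (Fin r) t (Fintype.card_fin r) ht hadm (2 * X) (by omega)
    have h4 := h1 (Fin r) t (Fintype.card_fin r) ht (fun i => by
      rw [pow_zero, mul_one]
      exact (htX i).trans (Nat.le_ceil _))
    set y := ⌈16 * L ^ 8⌉₊ with hydef
    have hy1 : (y : ℝ) ≤ L ^ 9 := by
      have a1 : (y : ℝ) < 16 * L ^ 8 + 1 := Nat.ceil_lt_add_one (by positivity)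
      have a2 : 1 ≤ L ^ 8 := one_le_pow₀ (by linarith)
      have a3 : L ^ 9 = L * L ^ 8 := by ring
      rw [a3]
      nlinarith
    have hy2 : (3 : ℝ) ≤ y := by
      have a1 : 16 * L ^ 8 ≤ (y : ℝ) := Nat.le_ceil _
      have a2 : 1 ≤ L ^ 8 := one_le_pow₀ (by linarith)
      linarith
    have hly : Real.log (y : ℝ) ≤ Real.log L ^ 2 := by
      calc Real.log (y : ℝ) ≤ Real.log (L ^ 9) := Real.log_le_log (by linarith) hy1
        _ = 9 * Real.log L := by rw [Real.log_pow]; push_cast; ring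
        _ ≤ Real.log L ^ 2 := by nlinarith
    have hly0 : 1 ≤ Real.log (y : ℝ) := by
      rw [Real.le_log_iff_exp_le (by linarith)]
      exact (Real.exp_one_lt_d9.le.trans (by norm_num)).trans hy2
    have hlly : Real.log (Real.log (y : ℝ)) ≤ 2 * T := by
      calc Real.log (Real.log (y : ℝ)) ≤ Real.log (Real.log L ^ 2) :=
            Real.log_le_log (by linarith) hly
        _ = 2 * T := by rw [Real.log_pow]; push_cast; ring
    have hlly0 : 0 ≤ Real.log (Real.log (y : ℝ)) := Real.log_nonneg hly0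
    have hSI' : HLB.SI t ≤ C1 * (2 * T) ^ (r - 1) := h4.trans (by gcongr)
    have hlog2 : L ≤ Real.log ((2 * X : ℕ) : ℝ) := by
      apply Real.log_le_log (by linarith)
      push_cast
      linarith
    calc (HLB.cnt t (2 * X) : ℝ)
        ≤ K * HLB.SI t * (((2 * X : ℕ) : ℝ) / Real.log ((2 * X : ℕ) : ℝ) ^ r) := by
          refine le_trans (le_of_eq ?_) h3
          unfold HLB.cnt
          congr
      _ ≤ K * (C1 * (2 * T) ^ (r - 1)) * (((2 * X : ℕ) : ℝ) / L ^ r) := by gcongr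
      _ = K * C1 * 2 ^ (r - 1) * 2 * T ^ (r - 1) * (X / L ^ r) := by
          push_cast
          rw [mul_pow]
          ring
      _ ≤ (K * C1 * 2 ^ (r - 1) * 2 + 1) * T ^ (r - 1) * (X / L ^ r) := by
          gcongr
          linarith
  · push Not at hadm
    obtain ⟨p, hp, hpp⟩ := hadm
    have h3 := HLB.count_inadm t hp hpp (2 * X)
    rw [Fintype.card_fin] at h3
    have h4 : (HLB.cnt t (2 * X) : ℝ) ≤ r := by
      have h3' : HLB.cnt t (2 * X) ≤ r := by
        refine le_trans (le_of_eq ?_) h3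
        unfold HLB.cnt
        congr
      exact_mod_cast h3'
    refine h4.trans ?_
    have h5 : (r : ℝ) ≤ X / L ^ r := by
      rw [le_div_iff₀ (by positivity)]
      calc (r : ℝ) * L ^ r ≤ r * (1 / r * X) := by gcongr
        _ = X := by field_simp
    have h6 : 0 ≤ (X : ℝ) / L ^ r := by positivity
    calc (r : ℝ) ≤ 1 * 1 * (X / L ^ r) := by linarith
      _ ≤ (K * C1 * 2 ^ (r - 1) * 2 + 1) * T ^ (r - 1) * (X / L ^ r) := by
          gcongr
          have : 0 ≤ K * C1 * 2 ^ (r - 1) * 2 := by positivity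
          linarith

theorem rep_upper3 : ∃ C : ℝ, 0 < C ∧ ∀ᶠ X : ℕ in atTop, ∀ n : ℕ, 1 ≤ n →
    (n : ℝ) ≤ 2 * Real.log X ^ 2 →
    (rep n X : ℝ) ≤ C * (X / Real.log X +
      n * (Real.log (Real.log (Real.log X)) * (X / Real.log X ^ 2))) := by
  classical
  obtain ⟨C2, hC2, h2⟩ := small_bound 2 (by norm_num)
  obtain ⟨C1, hC1, h1⟩ := small_bound 1 (by norm_num)
  refine ⟨C1 + C2, by positivity, ?_⟩
  filter_upwards [h2, h1, prpr_le8, tendsto_log_nat'.eventually_ge_atTop 20,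
    tendsto_logloglog.eventually_ge_atTop 1] with X hX2 hX1 hpp hL hT1 n hn hnX
  set T := Real.log (Real.log (Real.log (X : ℝ))) with hT
  have hprpr := hpp n hn hnX
  set Q : ℕ → Finset ℕ := fun k =>
    (Icc 1 X).filter (fun d => (pr k + 2 * d).Prime ∧ (pr (pr (n - k)) + 2 * d).Prime) with hQ
  have hsub : {d : ℕ | 1 ≤ d ∧ d ≤ X ∧ Representable d n} ⊆ ((Icc 1 (n - 1)).biUnion Q : Finset ℕ) := by
    rintro d ⟨hd1, hd2, k, m, hk, hm, hkm, hp1, hp2⟩
    rw [mem_coe, mem_biUnion]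
    refine ⟨k, mem_Icc.mpr ⟨hk, by omega⟩, ?_⟩
    rw [hQ, mem_filter, mem_Icc]
    have e : n - k = m := by omega
    refine ⟨⟨hd1, hd2⟩, hp1, ?_⟩
    rw [e]
    exact hp2
  have h1 : rep n X ≤ ∑ k ∈ Icc 1 (n - 1), (Q k).card := by
    unfold rep
    calc _ ≤ Set.ncard (((Icc 1 (n - 1)).biUnion Q : Finset ℕ) : Set ℕ) :=
          Set.ncard_le_ncard hsub (finite_toSet _)
      _ = ((Icc 1 (n - 1)).biUnion Q).card := Set.ncard_coe_finset _
      _ ≤ _ := card_biUnion_le
  have h1r : (rep n X : ℝ) ≤ ∑ k ∈ Icc 1 (n - 1), ((Q k).card : ℝ) := by exact_mod_cast h1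
  refine h1r.trans ?_
  have hs1 : ∀ k ∈ Icc 1 (n - 1), ((pr k : ℕ) : ℝ) ≤ 16 * Real.log X ^ 8 := by
    intro k hk
    rw [mem_Icc] at hk
    have b1 : pr k ≤ pr n := pr_le hk.1 (by omega)
    have b2 := lt_pr (pr_prime n).one_lt.le
    have : ((pr k : ℕ) : ℝ) ≤ ((pr (pr n) : ℕ) : ℝ) := by exact_mod_cast (by omega : pr k ≤ pr (pr n))
    exact this.trans hprpr
  have hs2 : ∀ k ∈ Icc 1 (n - 1), ((pr (pr (n - k)) : ℕ) : ℝ) ≤ 16 * Real.log X ^ 8 := by
    intro k hk
    rw [mem_Icc] at hk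
    have a2 : pr (pr (n - k)) ≤ pr (pr n) :=
      pr_le (pr_prime _).one_lt.le (pr_le (by omega) (by omega))
    have : ((pr (pr (n - k)) : ℕ) : ℝ) ≤ ((pr (pr n) : ℕ) : ℝ) := by exact_mod_cast a2
    exact this.trans hprpr
  have hb1 : ∀ k ∈ Icc 1 (n - 1), ((Q k).card : ℝ) ≤ C1 * (X / Real.log X) := by
    intro k hk
    have h := hX1 (fun _ => pr k) (fun i j _ => Subsingleton.elim i j) (fun _ => hs1 k hk)
    simp only [Nat.sub_self, pow_zero, mul_one, pow_one] at h
    refine le_trans ?_ h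
    have : (Q k).card ≤ ((Icc 1 X).filter (fun d => ∀ _i : Fin 1, (pr k + 2 * d).Prime)).card := by
      refine card_le_card (fun d hd => ?_)
      rw [hQ, mem_filter] at hd
      rw [mem_filter]
      exact ⟨hd.1, fun _ => hd.2.1⟩
    exact_mod_cast this
  have hb2 : ∀ k ∈ Icc 1 (n - 1), pr k ≠ pr (pr (n - k)) →
      ((Q k).card : ℝ) ≤ C2 * (T * (X / Real.log X ^ 2)) := by
    intro k hk hne
    have hinj : Function.Injective (![pr k, pr (pr (n - k))] : Fin 2 → ℕ) := by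
      intro i j hij
      fin_cases i <;> fin_cases j
      · rfl
      · exact absurd hij hne
      · exact absurd hij.symm hne
      · rfl
    have h := hX2 ![pr k, pr (pr (n - k))] hinj (fun i => by
      fin_cases i
      · exact hs1 k hk
      · exact hs2 k hk)
    have e21 : (2 : ℕ) - 1 = 1 := rfl
    rw [e21, pow_one, mul_assoc] at h
    refine le_trans ?_ h
    have : (Q k).card ≤ ((Icc 1 X).filter (fun d => ∀ i, ((![pr k, pr (pr (n - k))] : Fin 2 → ℕ) i +
        2 * d).Prime)).card := by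
      refine card_le_card (fun d hd => ?_)
      rw [hQ, mem_filter] at hd
      rw [mem_filter]
      refine ⟨hd.1, fun i => ?_⟩
      fin_cases i
      · exact hd.2.1
      · exact hd.2.2
    exact_mod_cast this
  set B := (Icc 1 (n - 1)).filter (fun k => pr k = pr (pr (n - k))) with hB
  have hBc : B.card ≤ 1 := by
    rw [card_le_one]
    have key : ∀ a ∈ B, ∀ b ∈ B, ¬ a < b := by
      intro a ha b hb hab
      rw [hB, mem_filter, mem_Icc] at ha hb
      have e1 : a = pr (n - a) := pr_inj ha.1.1 (pr_prime _).one_lt.le ha.2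
      have e2 : b = pr (n - b) := pr_inj hb.1.1 (pr_prime _).one_lt.le hb.2
      have e3 : pr (n - b) < pr (n - a) := pr_lt (by omega) (by omega)
      omega
    intro a ha b hb
    rcases lt_trichotomy a b with h | h | h
    · exact absurd h (key a ha b hb)
    · exact h
    · exact absurd h (key b hb a ha)
  rw [← sum_filter_add_sum_filter_not (Icc 1 (n - 1)) (fun k => pr k = pr (pr (n - k)))]
  have hL1 : (1 : ℝ) ≤ Real.log X := by linarith
  have hT0 : 0 ≤ T := by linarith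
  have p1 : 0 ≤ (X : ℝ) / Real.log X := by positivity
  have p2 : 0 ≤ (n : ℝ) * (T * (X / Real.log X ^ 2)) := by positivity
  have s1 : ∑ k ∈ B, ((Q k).card : ℝ) ≤ C1 * (X / Real.log X) := by
    calc ∑ k ∈ B, ((Q k).card : ℝ) ≤ ∑ _k ∈ B, C1 * (X / Real.log X) :=
          sum_le_sum (fun k hk => hb1 k (mem_filter.mp hk).1)
      _ = B.card * (C1 * (X / Real.log X)) := by rw [sum_const, nsmul_eq_mul]
      _ ≤ 1 * (C1 * (X / Real.log X)) := by
          have : (B.card : ℝ) ≤ 1 := by exact_mod_cast hBc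
          gcongr
      _ = _ := one_mul _
  have s2 : ∑ k ∈ (Icc 1 (n - 1)).filter (fun k => ¬ pr k = pr (pr (n - k))), ((Q k).card : ℝ) ≤
      C2 * (n * (T * (X / Real.log X ^ 2))) := by
    calc _ ≤ ∑ _k ∈ (Icc 1 (n - 1)).filter (fun k => ¬ pr k = pr (pr (n - k))),
            C2 * (T * (X / Real.log X ^ 2)) := by
          refine sum_le_sum (fun k hk => ?_)
          rw [mem_filter] at hk
          exact hb2 k hk.1 hk.2
      _ = ((Icc 1 (n - 1)).filter (fun k => ¬ pr k = pr (pr (n - k)))).card *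
            (C2 * (T * (X / Real.log X ^ 2))) := by rw [sum_const, nsmul_eq_mul]
      _ ≤ n * (C2 * (T * (X / Real.log X ^ 2))) := by
          have h0 : ((Icc 1 (n - 1)).filter (fun k => ¬ pr k = pr (pr (n - k)))).card ≤ n := by
            refine (card_filter_le _ _).trans ?_
            rw [Nat.card_Icc]
            omega
          have : (((Icc 1 (n - 1)).filter (fun k => ¬ pr k = pr (pr (n - k)))).card : ℝ) ≤ n := by
            exact_mod_cast h0
          gcongr
      _ = _ := by ring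
  calc _ ≤ C1 * (X / Real.log X) + C2 * (n * (T * (X / Real.log X ^ 2))) := add_le_add s1 s2
    _ ≤ (C1 + C2) * (X / Real.log X + n * (T * (X / Real.log X ^ 2))) := by nlinarith

/-- For all but `δ X` of the `d ≤ X` some `n ≥ c (log X)^2 / logloglog X` is not `d`-representable. -/
theorem thr_most : ∀ δ : ℝ, 0 < δ → ∃ c : ℝ, 0 < c ∧ ∀ᶠ X : ℕ in atTop,
    (Set.ncard {d : ℕ | 1 ≤ d ∧ d ≤ X ∧ ∀ n : ℕ,
      c * (Real.log X ^ 2 / Real.log (Real.log (Real.log X))) ≤ n → Representable d n} : ℝ) ≤ δ * X := by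
  intro δ hδ
  obtain ⟨C, hC, h⟩ := rep_upper3
  refine ⟨min (δ / (2 * C)) 1, lt_min (by positivity) one_pos, ?_⟩
  set c := min (δ / (2 * C)) 1 with hc
  have hc0 : 0 < c := lt_min (by positivity) one_pos
  have hc1 : c ≤ 1 := min_le_right _ _
  have hcC : C * c ≤ δ / 2 := by
    calc C * c ≤ C * (δ / (2 * C)) := by
          gcongr
          exact min_le_left _ _
      _ = δ / 2 := by field_simp
  filter_upwards [h, tendsto_log_nat'.eventually_ge_atTop 20, tendsto_log_nat'.eventually_ge_atTop (4 * C / δ),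
    tendsto_logloglog.eventually_ge_atTop 1, eventually_ge_atTop 1] with X hX hL hL2 hT1 hX1
  set L := Real.log (X : ℝ) with hLdef
  set T := Real.log (Real.log L) with hT
  have hXr : (1 : ℝ) ≤ X := by exact_mod_cast hX1
  have hL0 : 0 < L := by linarith
  have hLL : Real.log L ≤ L := Real.log_le_self hL0.le
  have hTL : T ≤ L := by
    have h1 : 0 ≤ Real.log L := Real.log_nonneg (by linarith)
    exact (Real.log_le_self h1).trans hLL
  have hT0 : 0 < T := by linarith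
  set n := ⌈c * (L ^ 2 / T)⌉₊ with hn
  have hn1 : 1 ≤ n := Nat.one_le_ceil_iff.mpr (by positivity)
  have hn2 : (n : ℝ) ≤ c * (L ^ 2 / T) + 1 := (Nat.ceil_lt_add_one (by positivity)).le
  have hn3 : c * (L ^ 2 / T) ≤ L ^ 2 := by
    calc c * (L ^ 2 / T) ≤ 1 * (L ^ 2 / 1) := by gcongr
      _ = L ^ 2 := by ring
  have hn4 : (n : ℝ) ≤ 2 * L ^ 2 := by nlinarith
  have h1 := hX n hn1 hn4
  have hsub : {d : ℕ | 1 ≤ d ∧ d ≤ X ∧ ∀ n : ℕ, c * (L ^ 2 / T) ≤ n → Representable d n} ⊆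
      {d : ℕ | 1 ≤ d ∧ d ≤ X ∧ Representable d n} :=
    fun d hd => ⟨hd.1, hd.2.1, hd.2.2 n (Nat.le_ceil _)⟩
  have hfin : {d : ℕ | 1 ≤ d ∧ d ≤ X ∧ Representable d n}.Finite :=
    (Set.finite_Icc 1 X).subset (fun d hd => ⟨hd.1, hd.2.1⟩)
  have h2 : (Set.ncard {d : ℕ | 1 ≤ d ∧ d ≤ X ∧ ∀ n : ℕ, c * (L ^ 2 / T) ≤ n → Representable d n} : ℝ) ≤
      rep n X := by exact_mod_cast Set.ncard_le_ncard hsub hfin
  refine (h2.trans h1).trans ?_
  have h3 : (n : ℝ) * (T * (X / L ^ 2)) ≤ c * X + X / L := by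
    calc (n : ℝ) * (T * (X / L ^ 2)) ≤ (c * (L ^ 2 / T) + 1) * (T * (X / L ^ 2)) := by gcongr
      _ = c * X + T * (X / L ^ 2) := by field_simp
      _ ≤ c * X + L * (X / L ^ 2) := by gcongr
      _ = c * X + X / L := by field_simp
  have h4 : C * (2 * (X / L)) ≤ δ / 2 * X := by
    have h5 : 4 * C ≤ δ * L := by
      rw [div_le_iff₀ hδ] at hL2
      linarith
    calc C * (2 * (X / L)) = (4 * C) * X / (2 * L) := by field_simp; ring
      _ ≤ (δ * L) * X / (2 * L) := by gcongr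
      _ = δ / 2 * X := by field_simp
  calc C * (X / L + n * (T * (X / L ^ 2))) ≤ C * (X / L + (c * X + X / L)) := by gcongr
    _ = C * c * X + C * (2 * (X / L)) := by ring
    _ ≤ δ / 2 * X + δ / 2 * X := by gcongr
    _ = δ * X := by ring

end Pool.Agent.Pec7
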